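import Mathlib

set_option autoImplicit false

/-!
# The degree of an algebraic element does not change over a purely transcendental extension
-/

namespace Pool.Agent.HFW

open Polynomial (lifts)

namespace DegA

section reg

variable {k k' : Type} [Field k] [Field k'] [Algebra k k']

/-- The ground field is algebraically closed in a purely transcendental extension. -/
theorem closed {ι : Type} {y : ι → k'} (hy : AlgebraicIndependent k y) (x : k')
    (hx : ∃ p q : MvPolynomial ι k, MvPolynomial.aeval y q ≠ 0 ∧
      x * MvPolynomial.aeval y q = MvPolynomial.aeval y p) (ha : IsAlgebraic k x) :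
    ∃ c : k, algebraMap k k' c = x := by
  classical
  obtain ⟨p, q, hq, hpq⟩ := hx
  have := IntermediateField.isAlgebraic_adjoin_simple ha.isIntegral
  have hy' : AlgebraicIndependent (IntermediateField.adjoin k {x}) y := hy.extendScalars _
  set E := IntermediateField.adjoin k {x} with hE
  set g : E := IntermediateField.AdjoinSimple.gen k x with hg
  have hP : MvPolynomial.aeval y (MvPolynomial.C g * MvPolynomial.map (algebraMap k E) q -
      MvPolynomial.map (algebraMap k E) p) = 0 := by
    rw [map_sub, map_mul, MvPolynomial.aeval_C, MvPolynomial.aeval_map_algebraMap,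
      MvPolynomial.aeval_map_algebraMap]
    have h1 : algebraMap E k' g = x := IntermediateField.AdjoinSimple.algebraMap_gen k x
    rw [h1, hpq, sub_self]
  have hP0 := (algebraicIndependent_iff.1 hy') _ hP
  have hq0 : q ≠ 0 := by
    rintro rfl
    exact hq (map_zero _)
  obtain ⟨m, hm⟩ := MvPolynomial.ne_zero_iff.1 hq0
  have h2 := congrArg (MvPolynomial.coeff m) hP0
  rw [MvPolynomial.coeff_sub, MvPolynomial.coeff_C_mul, MvPolynomial.coeff_map,
    MvPolynomial.coeff_map, MvPolynomial.coeff_zero, sub_eq_zero] at h2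
  refine ⟨p.coeff m / q.coeff m, ?_⟩
  have h3 := congrArg (algebraMap E k') h2
  rw [map_mul, ← IsScalarTower.algebraMap_apply, ← IsScalarTower.algebraMap_apply,
    IntermediateField.AdjoinSimple.algebraMap_gen] at h3
  rw [map_div₀, div_eq_iff ((map_ne_zero _).2 hm), h3]

theorem closed_of_adjoin {ι : Type} {y : ι → k'} (hy : AlgebraicIndependent k y)
    (ht : IntermediateField.adjoin k (Set.range y) = ⊤) (x : k') (ha : IsAlgebraic k x) :
    ∃ c : k, algebraMap k k' c = x := by
  have hx : x ∈ IntermediateField.adjoin k (Set.range y) := by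
    rw [ht]
    exact IntermediateField.mem_top
  obtain ⟨p, q, hpq⟩ := (IntermediateField.mem_adjoin_range_iff k y x).1 hx
  by_cases hq : MvPolynomial.aeval y q = 0
  · rw [hq, div_zero] at hpq
    exact ⟨0, by rw [map_zero, hpq]⟩
  · exact closed hy x ⟨p, q, hq, by rw [hpq, div_mul_cancel₀ _ hq]⟩ ha

theorem minpoly_eq (hreg : ∀ x : k', IsAlgebraic k x → ∃ c : k, algebraMap k k' c = x)
    {Ω : Type} [Field Ω] [Algebra k Ω] [Algebra k' Ω] [IsScalarTower k k' Ω] (x : Ω)
    (hx : IsIntegral k x) : minpoly k' x = (minpoly k x).map (algebraMap k k') := by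
  have hp : (minpoly k x).Monic := minpoly.monic hx
  have hx' : IsIntegral k' x := hx.tower_top
  have hg : (minpoly k' x).Monic := minpoly.monic hx'
  have hd : minpoly k' x ∣ (minpoly k x).map (algebraMap k k') :=
    minpoly.dvd_map_of_isScalarTower k k' x
  have hl := integralClosure.mem_lifts_of_monic_of_dvd_map k' hp hg hd
  have hl2 : minpoly k' x ∈ lifts (algebraMap k k') := by
    rw [Polynomial.lifts_iff_coeff_lifts] at hl ⊢
    intro n
    obtain ⟨z, hz⟩ := hl n
    obtain ⟨c, hc⟩ := hreg ((minpoly k' x).coeff n) (by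
      rw [← hz]
      exact isAlgebraic_iff_isIntegral.2 z.2)
    exact ⟨c, hc⟩
  obtain ⟨h, hh⟩ := (Polynomial.mem_lifts _).1 hl2
  have h1 : Polynomial.aeval x h = 0 := by
    rw [← Polynomial.aeval_map_algebraMap k', hh, minpoly.aeval]
  have h2 : (minpoly k x).map (algebraMap k k') ∣ minpoly k' x := by
    rw [← hh]
    exact Polynomial.map_dvd _ (minpoly.dvd k x h1)
  exact Polynomial.eq_of_monic_of_associated hg (hp.map _) (associated_of_dvd_dvd hd h2)

end reg

end DegA

theorem deg_transc {k k' Ω ι : Type} [Field k] [Field k'] [Field Ω] [Algebra k k']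
    [Algebra k' Ω] [Algebra k Ω] [IsScalarTower k k' Ω] (y : ι → k')
    (hy : AlgebraicIndependent k y) (ht : IntermediateField.adjoin k (Set.range y) = ⊤) (θ : Ω)
    (hθ : IsAlgebraic k θ) : (minpoly k' θ).natDegree = (minpoly k θ).natDegree := by
  rw [DegA.minpoly_eq (DegA.closed_of_adjoin hy ht) θ hθ.isIntegral, Polynomial.natDegree_map]

end Pool.Agent.HFW
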