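import Mathlib
import Pool.Agent.HFW.Deg
import Pool.Agent.PNH.Defs
import Pool.Agent.PNH.Cer
import Pool.Agent.PNH.Alg
import Pool.Agent.PNH.Gen

set_option autoImplicit false

/-!
# Preperiodic points of bounded degree over a purely transcendental extension
-/

namespace Pool.Agent.HFW

open Pool.Agent.PNH

namespace PreTA

variable {k k' : Type} [Field k] [Field k'] [Algebra k k'] {N d : ℕ}

/-- Algebraic coordinates lie in the image of the algebraic closure. -/
theorem exists_lift {L : Type} [Field L] [Algebra k L] (j : AlgebraicClosure k →ₐ[k] L)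
    (x : Fin (N + 1) → L) (halg : ∀ i, IsAlgebraic k (x i)) :
    ∃ y : Fin (N + 1) → AlgebraicClosure k, (fun i => j (y i)) = x := by
  have hj : (j : AlgebraicClosure k →+* L).comp (algebraMap k (AlgebraicClosure k)) =
      algebraMap k L := j.comp_algebraMap
  have hex : ∀ i, ∃ y, j y = x i := fun i => by
    obtain ⟨p, hp, hpx⟩ := halg i
    refine Gen.mem_range (j : AlgebraicClosure k →+* L) (x i) p hp ?_
    rw [hj]
    exact hpx
  choose y hy using hex
  exact ⟨y, funext hy⟩

theorem desc {L : Type} [Field L] [Algebra k L] [IsAlgClosed L] (F : Tup N k) (hF : IsMor d k F)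
    (x : Fin (N + 1) → L) (halg : ∀ i, IsAlgebraic k (x i))
    (hx : app (mp (algebraMap k L) F) x = 0) : x = 0 := by
  let j : AlgebraicClosure k →ₐ[k] L := IsAlgClosed.lift
  have hj : (j : AlgebraicClosure k →+* L).comp (algebraMap k (AlgebraicClosure k)) =
      algebraMap k L := j.comp_algebraMap
  obtain ⟨y, rfl⟩ := exists_lift j x halg
  have h2 : app (mp (algebraMap k (AlgebraicClosure k)) F) y = 0 := by
    funext i
    apply (j : AlgebraicClosure k →+* L).injective
    have h3 := app_mp (j : AlgebraicClosure k →+* L) (mp (algebraMap k (AlgebraicClosure k)) F) y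
    rw [mp_mp, hj] at h3
    have h4 := congrFun h3 i
    have h5 := congrFun hx i
    rw [← h4]
    change app (mp (algebraMap k L) F) (fun i => j (y i)) i = _
    rw [h5]
    simp
  have h6 := hF.2 y h2
  funext i
  rw [h6]
  simp

/-- A certificate over a field. -/
theorem cert_field (F : Tup N k) (hF : IsMor d k F) : ∃ (c : k) (e : ℕ), c ≠ 0 ∧ Cert F c e := by
  refine exists_cert F fun x hx => ?_
  refine desc F hF x (fun i => ?_) hx
  have h1 : IsAlgebraic (FractionRing k) (x i) := Algebra.IsAlgebraic.isAlgebraic _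
  exact (IsFractionRing.isAlgebraic_iff k (FractionRing k) _).2 h1

end PreTA

theorem mor_mp {k k' : Type} [Field k] [Field k'] [Algebra k k'] {N d : ℕ} (F : Tup N k)
    (hF : IsMor d k F) : IsMor d k' (mp (algebraMap k k') F) := by
  obtain ⟨c, e, hc, hC⟩ := PreTA.cert_field F hF
  refine ⟨fun i => hom_mp d _ F hF.1 i, fun x hx => ?_⟩
  refine Cert.eq_zero ((hC.mp (algebraMap k k')).mp (algebraMap k' (AlgebraicClosure k'))) ?_ x hx
  rw [Ne, map_eq_zero, map_eq_zero]
  exact hc

namespace PreTA

variable {k k' : Type} [Field k] [Field k'] [Algebra k k'] {N d : ℕ}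

/-- A finite family of algebraic elements is contained in a simple extension generated by an element
of the field they generate. -/
theorem exists_prim [CharZero k] {L : Type} [Field L] [Algebra k L] (x : Fin (N + 1) → L)
    (halg : ∀ i, IsAlgebraic k (x i)) :
    ∃ θ : L, IsAlgebraic k θ ∧ θ ∈ IntermediateField.adjoin k (Set.range x) ∧
      ∀ i, x i ∈ IntermediateField.adjoin k {θ} := by
  classical
  set E := IntermediateField.adjoin k (Set.range x) with hE
  have hfin : FiniteDimensional k E := by
    refine IntermediateField.finiteDimensional_adjoin ?_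
    rintro _ ⟨i, rfl⟩
    exact (halg i).isIntegral
  obtain ⟨α, hα⟩ := Field.exists_primitive_element k E
  refine ⟨α, ?_, α.2, fun i => ?_⟩
  · have h1 : IsAlgebraic k α := Algebra.IsAlgebraic.isAlgebraic α
    exact h1.algebraMap (A := L)
  · have h2 : (⟨x i, IntermediateField.subset_adjoin k _ ⟨i, rfl⟩⟩ : E) ∈
        IntermediateField.adjoin k {α} := by
      rw [hα]
      exact IntermediateField.mem_top
    have h3 := IntermediateField.adjoin_map k {α} E.val
    rw [Set.image_singleton] at h3
    change x i ∈ IntermediateField.adjoin k {E.val α}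
    rw [← h3]
    exact ⟨_, h2, rfl⟩

/-- An embedding over `k` sends `k(S)` into `k'(j(S))`. -/
theorem map_mem {L M : Type} [Field L] [Algebra k L] [Field M] [Algebra k M] [Algebra k' M]
    [IsScalarTower k k' M] (j : L →ₐ[k] M) (S : Set L) (x : L)
    (hx : x ∈ IntermediateField.adjoin k S) (E : IntermediateField k' M)
    (hE : ∀ s ∈ S, j s ∈ E) : j x ∈ E := by
  have h1 : j x ∈ (IntermediateField.adjoin k S).map j := ⟨x, hx, rfl⟩
  rw [IntermediateField.adjoin_map] at h1
  have h2 : IntermediateField.adjoin k (j '' S) ≤ E.restrictScalars k := by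
    rw [IntermediateField.adjoin_le_iff]
    rintro _ ⟨s, hs, rfl⟩
    exact hE s hs
  exact h2 h1

theorem natDegree_le {L : Type} [Field L] [Algebra k L] [Algebra.IsAlgebraic k L] (θ θ' : L)
    (h : θ ∈ IntermediateField.adjoin k {θ'}) :
    (minpoly k θ).natDegree ≤ (minpoly k θ').natDegree := by
  have h1 : IsIntegral k θ' := (Algebra.IsAlgebraic.isAlgebraic θ').isIntegral
  have h2 : IsIntegral k θ := (Algebra.IsAlgebraic.isAlgebraic θ).isIntegral
  have := IntermediateField.adjoin.finiteDimensional h1
  rw [← IntermediateField.adjoin.finrank h1, ← IntermediateField.adjoin.finrank h2]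
  have h3 : IntermediateField.adjoin k {θ} ≤ IntermediateField.adjoin k {θ'} :=
    IntermediateField.adjoin_simple_le_iff.2 h
  exact LinearMap.finrank_le_finrank_of_injective (f := (IntermediateField.inclusion h3).toLinearMap)
    (IntermediateField.inclusion h3).injective

end PreTA

theorem pre_transc {k k' ι : Type} [Field k] [Field k'] [Algebra k k'] [CharZero k] {N d : ℕ}
    (hd : 2 ≤ d) (D : ℕ) (y : ι → k') (hy : AlgebraicIndependent k y)
    (ht : IntermediateField.adjoin k (Set.range y) = ⊤) (F : Tup N k) (hF : IsMor d k F) :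
    (Pre k' D (mp (algebraMap k k') F)).ncard = (Pre k D F).ncard := by
  classical
  let j : AlgebraicClosure k →ₐ[k] AlgebraicClosure k' := IsAlgClosed.lift
  have hj : (j : AlgebraicClosure k →+* AlgebraicClosure k').comp
      (algebraMap k (AlgebraicClosure k)) = algebraMap k (AlgebraicClosure k') := j.comp_algebraMap
  have hinj : Function.Injective (fun (x : Fin (N + 1) → AlgebraicClosure k) (i : Fin (N + 1)) =>
      j (x i)) := by
    intro a b hab
    funext i
    exact j.toRingHom.injective (congrFun hab i)
  have hmp : mp (algebraMap k' (AlgebraicClosure k')) (mp (algebraMap k k') F) =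
      mp (algebraMap k (AlgebraicClosure k')) F := by
    rw [mp_mp, ← IsScalarTower.algebraMap_eq]
  have hit : ∀ (x : Fin (N + 1) → AlgebraicClosure k) (n : ℕ),
      (app (mp (algebraMap k (AlgebraicClosure k')) F))^[n] (fun i => j (x i)) =
        fun i => j ((app (mp (algebraMap k (AlgebraicClosure k)) F))^[n] x i) := by
    intro x n
    have := iter_mp (j : AlgebraicClosure k →+* AlgebraicClosure k')
      (mp (algebraMap k (AlgebraicClosure k)) F) n x
    rw [mp_mp, hj] at this
    exact this
  have hpar : ∀ u w : Fin (N + 1) → AlgebraicClosure k,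
      Par (fun i => j (u i)) (fun i => j (w i)) ↔ Par u w := by
    intro u w
    refine ⟨fun h i l => ?_, fun h => h.map (j : AlgebraicClosure k →+* AlgebraicClosure k')⟩
    have := h i l
    simp only [← map_mul] at this
    exact j.toRingHom.injective this
  have hdeg : ∀ θ : AlgebraicClosure k,
      (minpoly k' (j θ)).natDegree = (minpoly k θ).natDegree := by
    intro θ
    rw [deg_transc y hy ht (j θ) ((Algebra.IsAlgebraic.isAlgebraic θ).algHom j),
      minpoly.algHom_eq j j.toRingHom.injective]
  have himg : Pre k' D (mp (algebraMap k k') F) =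
      (fun (x : Fin (N + 1) → AlgebraicClosure k) (i : Fin (N + 1)) => j (x i)) '' Pre k D F := by
    ext z
    constructor
    · rintro ⟨hn, ⟨θ', hθ', hzθ⟩, a, b, hab, hp⟩
      rw [hmp] at hp
      obtain ⟨c, e, hc, hC⟩ := PreTA.cert_field F hF
      have halg : ∀ i, IsAlgebraic k (z i) := by
        obtain ⟨i0, hi0, _⟩ := hn
        exact alg hd F hF.1 c e hc hC z ⟨i0, hi0⟩ a b hab hp
      obtain ⟨x, rfl⟩ := PreTA.exists_lift j z halg
      refine ⟨x, ⟨?_, ?_, a, b, hab, ?_⟩, rfl⟩
      · obtain ⟨i0, hi0, hi1⟩ := hn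
        refine ⟨i0, j.toRingHom.injective ?_, fun l hl => j.toRingHom.injective ?_⟩
        · exact hi0.trans (map_one _).symm
        · exact (hi1 l hl).trans (map_zero _).symm
      · obtain ⟨θ, hθ, hθx, hxθ⟩ := PreTA.exists_prim (k := k) x
          fun i => Algebra.IsAlgebraic.isAlgebraic (x i)
        refine ⟨θ, ?_, hxθ⟩
        rw [← hdeg θ]
        refine (PreTA.natDegree_le (k := k') (j θ) θ' ?_).trans hθ'
        refine PreTA.map_mem j (Set.range x) θ hθx _ ?_
        rintro _ ⟨i, rfl⟩
        exact hzθ i
      · rw [hit, hit] at hp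
        exact (hpar _ _).1 hp
    · rintro ⟨x, ⟨hn, ⟨θ, hθ, hxθ⟩, a, b, hab, hp⟩, rfl⟩
      refine ⟨?_, ⟨j θ, ?_, ?_⟩, a, b, hab, ?_⟩
      · obtain ⟨i0, hi0, hi1⟩ := hn
        refine ⟨i0, ?_, fun l hl => ?_⟩
        · change j (x i0) = 1
          rw [hi0, map_one]
        · change j (x l) = 0
          rw [hi1 l hl, map_zero]
      · rw [hdeg θ]
        exact hθ
      · intro i
        refine PreTA.map_mem j {θ} (x i) (hxθ i) _ ?_
        rintro _ rfl
        exact IntermediateField.mem_adjoin_simple_self k' _
      · rw [hmp, hit, hit]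
        exact (hpar _ _).2 hp
  rw [himg]
  exact Set.ncard_image_of_injective _ hinj

end Pool.Agent.HFW
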