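import Mathlib
import Pool.Agent.PNH.Defs

set_option autoImplicit false

/-!
# The members of a family at points with coordinates in a field: definitions
-/

namespace Pool.Agent.HFW

open NumberField
open Pool.Agent.PNH
open Pool.Agent.LIM (GF)
open Pool.Agent.FamK (ev)

/-- The member of the family `F` at the point `s`, whose coordinates lie in an algebra `L` over the
ring of coefficients. -/
noncomputable def spec {A L : Type} [CommRing A] [CommRing L] [Algebra A L] {N r : ℕ}
    (F : Tup N (MvPolynomial (Fin r) A)) (s : Fin r → L) : Tup N L :=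
  mp ((MvPolynomial.aeval s : MvPolynomial (Fin r) A →ₐ[A] L) : MvPolynomial (Fin r) A →+* L) F

/-- The tuple `c F`. -/
noncomputable def sc {A : Type} [CommRing A] {N : ℕ} (c : A) (F : Tup N A) : Tup N A :=
  fun i => MvPolynomial.C c * F i

/-- The linear form `∑ ω_j z_(i,j)`. -/
noncomputable def lin {A : Type} [CommRing A] {q m R : ℕ} (ω : Fin m → A)
    (e : Fin R ≃ Fin q × Fin m) (i : Fin q) : MvPolynomial (Fin R) A :=
  ∑ j : Fin m, MvPolynomial.C (ω j) * MvPolynomial.X (e.symm (i, j))

section

variable {A L : Type} [CommRing A] [CommRing L] [Algebra A L] {N r : ℕ}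

theorem spec_hom {d : ℕ} (F : Tup N (MvPolynomial (Fin r) A)) (hF : ∀ i, (F i).IsHomogeneous d)
    (s : Fin r → L) (i : Fin (N + 1)) : (spec F s i).IsHomogeneous d :=
  hom_mp d _ F hF i

/-- evaluation after a change of the parameters -/
theorem spec_mp {q : ℕ} (F : Tup N (MvPolynomial (Fin r) A))
    (P : Fin r → MvPolynomial (Fin q) A) (z : Fin q → L) :
    spec (mp ((MvPolynomial.aeval P : MvPolynomial (Fin r) A →ₐ[A] MvPolynomial (Fin q) A) :
      MvPolynomial (Fin r) A →+* MvPolynomial (Fin q) A) F) z =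
      spec F fun i => MvPolynomial.aeval z (P i) := by
  unfold spec
  rw [mp_mp]
  congr 1
  refine MvPolynomial.ringHom_ext (fun a => ?_) (fun i => ?_)
  · simp
  · simp

theorem spec_map {M : Type} [CommRing M] [Algebra A M] (f : L →ₐ[A] M)
    (F : Tup N (MvPolynomial (Fin r) A)) (s : Fin r → L) :
    mp (f : L →+* M) (spec F s) = spec F fun i => f (s i) := by
  unfold spec
  rw [mp_mp]
  congr 1
  refine MvPolynomial.ringHom_ext (fun a => ?_) (fun i => ?_)
  · simp
  · simp

end

section

variable {K : Type} [Field K] [NumberField K] {N r : ℕ}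

theorem mem_eq (F : Tup N (MvPolynomial (Fin r) (𝓞 K))) (s : Fin r → ℤ) :
    mem s F = spec F fun i => ((s i : ℤ) : K) := by
  unfold mem spec
  congr 1
  refine MvPolynomial.ringHom_ext (fun a => ?_) (fun i => ?_)
  · simp [ev]
  · simp [ev]

theorem gen_eq (F : Tup N (MvPolynomial (Fin r) (𝓞 K))) :
    gen F = spec F fun i => algebraMap (MvPolynomial (Fin r) (𝓞 K)) (GF r K)
      (MvPolynomial.X i) := by
  unfold gen spec
  congr 1
  refine MvPolynomial.ringHom_ext (fun a => ?_) (fun i => ?_)
  · simp only [RingHom.coe_coe, MvPolynomial.aeval_C]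
    rw [IsScalarTower.algebraMap_apply (𝓞 K) (MvPolynomial (Fin r) (𝓞 K)) (GF r K)]
    rfl
  · simp

end

end Pool.Agent.HFW
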