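import Mathlib
import Pool.Agent.HFW.Defs
import Pool.Agent.PNB.AllB

set_option autoImplicit false

/-!
# The field of the coordinates over the field of the parameters
-/

namespace Pool.Agent.HFW

open NumberField
open Pool.Agent.PNH
open Pool.Agent.LIM (GF Null)
open Pool.Agent.PNB.AllB (Oth Psi Psi_injective)

namespace BasA

/-- division by an element of the field keeps independence -/
theorem ind_div {k E ι : Type} [Field k] [Field E] [Algebra k E] {x : ι → E}
    (hx : AlgebraicIndependent k x) (c : k) (hc : c ≠ 0) :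
    AlgebraicIndependent k fun i => x i / algebraMap k E c := by
  have h1 : Transcendental k (Polynomial.C c⁻¹ * Polynomial.X : Polynomial k) := by
    refine Polynomial.transcendental _ ?_ ?_
    · rw [Polynomial.natDegree_C_mul_X _ (inv_ne_zero hc)]
      exact one_ne_zero
    · rw [mem_nonZeroDivisors_iff_ne_zero, Polynomial.leadingCoeff_ne_zero]
      exact mul_ne_zero (Polynomial.C_ne_zero.2 (inv_ne_zero hc)) Polynomial.X_ne_zero
  have h2 := hx.polynomial_aeval_of_transcendental (f := fun _ => Polynomial.C c⁻¹ * Polynomial.X)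
    fun _ => h1
  have h3 : (fun i => Polynomial.aeval (x i) (Polynomial.C c⁻¹ * Polynomial.X : Polynomial k)) =
      fun i => x i / algebraMap k E c := by
    funext i
    rw [map_mul, Polynomial.aeval_C, Polynomial.aeval_X, map_inv₀, div_eq_mul_inv, mul_comm]
  rwa [h3] at h2

end BasA

open BasA

theorem exists_bas (K : Type) [Field K] [NumberField K] {r m R : ℕ} (ω : Fin m → 𝓞 K)
    (hω : ∃ j, ω j ≠ 0) (e : Fin R ≃ Fin (r + 1) × Fin m) :
    algebraMap (MvPolynomial (Fin R) (𝓞 K)) (GF R K) (lin ω e 0) ≠ 0 ∧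
    ∃ (_ : Algebra (GF r K) (GF R K)) (ι : Type) (y : ι → GF R K),
      AlgebraicIndependent (GF r K) y ∧
      IntermediateField.adjoin (GF r K) (Set.range y) = ⊤ ∧
      (∀ a : 𝓞 K, algebraMap (GF r K) (GF R K) (algebraMap (𝓞 K) (GF r K) a) =
        algebraMap (𝓞 K) (GF R K) a) ∧
      ∀ i : Fin r, algebraMap (GF r K) (GF R K)
          (algebraMap (MvPolynomial (Fin r) (𝓞 K)) (GF r K) (MvPolynomial.X i)) =
        algebraMap (MvPolynomial (Fin R) (𝓞 K)) (GF R K) (lin ω e i.succ) /
          algebraMap (MvPolynomial (Fin R) (𝓞 K)) (GF R K) (lin ω e 0) := by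
  classical
  obtain ⟨j₀, hj₀⟩ := hω
  let F := FractionRing (𝓞 K)
  let _ : Algebra F (GF R K) := FractionRing.liftAlgebra (𝓞 K) (GF R K)
  set A := MvPolynomial (Fin R) (𝓞 K) with hA
  set L : Fin (r + 1) → GF R K := fun i => algebraMap A (GF R K) (lin ω e i) with hL
  set z : Oth e j₀ → GF R K := fun t => algebraMap A (GF R K) (MvPolynomial.X t.1) with hz
  have hLp : ∀ p, L p = ∑ j : Fin m, algebraMap (𝓞 K) (GF R K) (ω j) *
      algebraMap A (GF R K) (MvPolynomial.X (e.symm (p, j))) := by
    intro p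
    rw [hL]
    simp only [lin, map_sum, map_mul]
    rfl
  have hind0 : AlgebraicIndependent (𝓞 K) (Sum.elim L z) := by
    have h1 : MvPolynomial.aeval (R := 𝓞 K) (Sum.elim L z) =
        (IsScalarTower.toAlgHom (𝓞 K) A (GF R K)).comp (Psi ω e j₀) := by
      refine MvPolynomial.algHom_ext fun i => ?_
      rcases i with p | t
      · rw [MvPolynomial.aeval_X, Sum.elim_inl, hLp]
        simp only [AlgHom.comp_apply, Psi, MvPolynomial.aeval_X, Sum.elim_inl, map_sum, map_mul]
        rfl
      · rw [MvPolynomial.aeval_X, Sum.elim_inr]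
        simp only [AlgHom.comp_apply, Psi, MvPolynomial.aeval_X, Sum.elim_inr]
        rfl
    rw [AlgebraicIndependent, h1]
    exact (IsFractionRing.injective A (GF R K)).comp (Psi_injective ω e j₀ hj₀)
  have hL0 : L 0 ≠ 0 := hind0.ne_zero (Sum.inl 0)
  refine ⟨hL0, ?_⟩
  have : Algebra.IsAlgebraic (𝓞 K) F := IsLocalization.isAlgebraic F (nonZeroDivisors (𝓞 K))
  have hind1 : AlgebraicIndependent F (Sum.elim L z) := hind0.extendScalars F
  set y : Unit ⊕ Oth e j₀ → GF R K := Sum.elim (fun _ => L 0) z with hy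
  set x : Fin r → GF R K := fun i => L i.succ with hx
  set w : Fin r → GF R K := fun i => L i.succ / L 0 with hw
  have hind2 : AlgebraicIndependent F (Sum.elim x y) := by
    have h1 := hind1.comp (Sum.elim (fun i : Fin r => Sum.inl i.succ)
      (Sum.elim (fun _ : Unit => Sum.inl 0) fun t => Sum.inr t) :
        Fin r ⊕ (Unit ⊕ Oth e j₀) → Fin (r + 1) ⊕ Oth e j₀) (by
      rintro (i | i | i) (j | j | j) hij
      · exact congrArg Sum.inl (Fin.succ_injective _ (Sum.inl_injective hij))
      · exact absurd (Sum.inl_injective hij) (Fin.succ_ne_zero i)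
      · exact absurd hij Sum.inl_ne_inr
      · exact absurd (Sum.inl_injective hij).symm (Fin.succ_ne_zero j)
      · rfl
      · exact absurd hij Sum.inl_ne_inr
      · exact absurd hij Sum.inr_ne_inl
      · exact absurd hij Sum.inr_ne_inl
      · exact congrArg (fun t => Sum.inr (Sum.inr t)) (Sum.inr_injective hij))
    have h2 : (Sum.elim L z) ∘ (Sum.elim (fun i : Fin r => Sum.inl i.succ)
        (Sum.elim (fun _ : Unit => Sum.inl 0) fun t => Sum.inr t) :
        Fin r ⊕ (Unit ⊕ Oth e j₀) → Fin (r + 1) ⊕ Oth e j₀) = Sum.elim x y := by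
      funext i
      rcases i with i | i | i <;> rfl
    rwa [h2] at h1
  obtain ⟨hyind, hxind⟩ := AlgebraicIndependent.sumElim_iff.1 hind2
  have hwind : AlgebraicIndependent F (Sum.elim w y) := by
    refine AlgebraicIndependent.sumElim_iff.2 ⟨hyind, ?_⟩
    rw [← IntermediateField.algebraicIndependent_adjoin_iff] at hxind ⊢
    have h1 : L 0 ∈ IntermediateField.adjoin F (Set.range y) :=
      IntermediateField.subset_adjoin _ _ ⟨Sum.inl (), rfl⟩
    exact ind_div hxind (⟨L 0, h1⟩ : IntermediateField.adjoin F (Set.range y))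
      fun h => hL0 (congrArg Subtype.val h)
  have hwind0 : AlgebraicIndependent (𝓞 K) (Sum.elim w y) :=
    hwind.restrictScalars (IsFractionRing.injective (𝓞 K) F)
  have hw0 : AlgebraicIndependent (𝓞 K) w := hwind0.comp Sum.inl Sum.inl_injective
  -- the structure of an algebra
  set B := MvPolynomial (Fin r) (𝓞 K) with hB
  let f : B →ₐ[𝓞 K] GF R K := MvPolynomial.aeval w
  have hf : Function.Injective f.toRingHom := hw0
  let φ : GF r K →+* GF R K := IsFractionRing.lift hf
  let _ : Algebra (GF r K) (GF R K) := φ.toAlgebra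
  have hφ : ∀ b : B, algebraMap (GF r K) (GF R K) (algebraMap B (GF r K) b) = f b :=
    fun b => IsFractionRing.lift_algebraMap hf b
  let _ : Algebra B (GF R K) := f.toRingHom.toAlgebra
  have : IsScalarTower B (GF r K) (GF R K) := IsScalarTower.of_algebraMap_eq fun b => (hφ b).symm
  have hyB : AlgebraicIndependent B y := by
    have h1 : (MvPolynomial.aeval (R := B) y : MvPolynomial (Unit ⊕ Oth e j₀) B →ₐ[B]
        GF R K).toRingHom.comp
        (MvPolynomial.sumAlgEquiv (𝓞 K) (Unit ⊕ Oth e j₀) (Fin r)).toRingEquiv.toRingHom =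
        (MvPolynomial.aeval (R := 𝓞 K) (Sum.elim y w)).toRingHom := by
      refine MvPolynomial.ringHom_ext (fun a => ?_) (fun i => ?_)
      · change MvPolynomial.aeval (R := B) y (MvPolynomial.sumAlgEquiv (𝓞 K) (Unit ⊕ Oth e j₀) (Fin r)
          (MvPolynomial.C a)) = MvPolynomial.aeval (R := 𝓞 K) (Sum.elim y w) (MvPolynomial.C a)
        rw [MvPolynomial.sumAlgEquiv_C_inl, MvPolynomial.aeval_C, MvPolynomial.aeval_C]
        exact MvPolynomial.aeval_C _ _
      · change MvPolynomial.aeval (R := B) y (MvPolynomial.sumAlgEquiv (𝓞 K) (Unit ⊕ Oth e j₀) (Fin r)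
          (MvPolynomial.X i)) = MvPolynomial.aeval (R := 𝓞 K) (Sum.elim y w) (MvPolynomial.X i)
        rcases i with i | i
        · rw [MvPolynomial.sumAlgEquiv_X_inl, MvPolynomial.aeval_X, MvPolynomial.aeval_X]
          rfl
        · rw [MvPolynomial.sumAlgEquiv_X_inr, MvPolynomial.aeval_C, MvPolynomial.aeval_X]
          exact MvPolynomial.aeval_X _ _
    have h2 : AlgebraicIndependent (𝓞 K) (Sum.elim y w) := by
      have h3 := hwind0.comp Sum.swap Sum.swap_leftInverse.injective
      have h4 : Sum.elim w y ∘ Sum.swap = Sum.elim y w := by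
        funext i
        rcases i with i | i <;> rfl
      rwa [h4] at h3
    have h5 : Function.Injective (MvPolynomial.aeval (R := 𝓞 K) (Sum.elim y w)).toRingHom := h2
    rw [← h1] at h5
    intro P Q hPQ
    obtain ⟨P', rfl⟩ := (MvPolynomial.sumAlgEquiv (𝓞 K) (Unit ⊕ Oth e j₀) (Fin r)).surjective P
    obtain ⟨Q', rfl⟩ := (MvPolynomial.sumAlgEquiv (𝓞 K) (Unit ⊕ Oth e j₀) (Fin r)).surjective Q
    exact congrArg _ (h5 hPQ)
  have : Algebra.IsAlgebraic B (GF r K) := IsLocalization.isAlgebraic (GF r K) (nonZeroDivisors B)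
  have hyG : AlgebraicIndependent (GF r K) y := hyB.extendScalars (GF r K)
  refine ⟨inferInstance, Unit ⊕ Oth e j₀, y, hyG, ?_, fun a => ?_, fun i => ?_⟩
  · set T := IntermediateField.adjoin (GF r K) (Set.range y) with hT
    have hC : ∀ c : 𝓞 K, algebraMap (𝓞 K) (GF R K) c ∈ T := by
      intro c
      have h1 : algebraMap (GF r K) (GF R K) (algebraMap B (GF r K) (MvPolynomial.C c)) =
          algebraMap (𝓞 K) (GF R K) c := by
        rw [hφ]
        exact MvPolynomial.aeval_C _ _
      rw [← h1]
      exact T.algebraMap_mem _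
    have hL0T : L 0 ∈ T := IntermediateField.subset_adjoin _ _ ⟨Sum.inl (), rfl⟩
    have hLT : ∀ p, L p ∈ T := by
      intro p
      refine Fin.cases hL0T (fun i => ?_) p
      have h1 : algebraMap (GF r K) (GF R K) (algebraMap B (GF r K) (MvPolynomial.X i)) =
          L i.succ / L 0 := by
        rw [hφ]
        exact MvPolynomial.aeval_X _ _
      have h2 : L i.succ / L 0 ∈ T := by
        rw [← h1]
        exact T.algebraMap_mem _
      have h3 : L i.succ = L i.succ / L 0 * L 0 := (div_mul_cancel₀ _ hL0).symm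
      rw [h3]
      exact mul_mem h2 hL0T
    have hXo : ∀ t : Fin R, (e t).2 ≠ j₀ → algebraMap A (GF R K) (MvPolynomial.X t) ∈ T := by
      intro t ht
      exact IntermediateField.subset_adjoin _ _ ⟨Sum.inr ⟨t, ht⟩, rfl⟩
    have hω0 : algebraMap (𝓞 K) (GF R K) (ω j₀) ≠ 0 := by
      intro h0
      rw [← map_zero (algebraMap (𝓞 K) (GF R K))] at h0
      exact hj₀ (FaithfulSMul.algebraMap_injective (𝓞 K) (GF R K) h0)
    have hX : ∀ t : Fin R, algebraMap A (GF R K) (MvPolynomial.X t) ∈ T := by
      intro t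
      by_cases ht : (e t).2 = j₀
      · have h1 := hLp (e t).1
        rw [← Finset.add_sum_erase _ _ (Finset.mem_univ j₀)] at h1
        have h2 : e.symm ((e t).1, j₀) = t := by
          rw [← ht]
          exact e.symm_apply_apply t
        rw [h2] at h1
        have h3 : algebraMap A (GF R K) (MvPolynomial.X t) =
            (L (e t).1 - ∑ j ∈ Finset.univ.erase j₀, algebraMap (𝓞 K) (GF R K) (ω j) *
              algebraMap A (GF R K) (MvPolynomial.X (e.symm ((e t).1, j)))) /
              algebraMap (𝓞 K) (GF R K) (ω j₀) := by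
          rw [eq_div_iff hω0, h1]
          ring
        rw [h3]
        refine div_mem (sub_mem (hLT _) (sum_mem fun j hj => mul_mem (hC _) (hXo _ ?_))) (hC _)
        rw [Equiv.apply_symm_apply]
        exact Finset.ne_of_mem_erase hj
      · exact hXo t ht
    have hp : ∀ p : A, algebraMap A (GF R K) p ∈ T := by
      intro p
      induction p using MvPolynomial.induction_on with
      | C c => exact hC c
      | add p q hp hq =>
        rw [map_add]
        exact add_mem hp hq
      | mul_X p t hp =>
        rw [map_mul]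
        exact mul_mem hp (hX t)
    rw [eq_top_iff]
    intro v _
    obtain ⟨p, q, -, rfl⟩ := IsFractionRing.div_surjective (A := A) v
    exact div_mem (hp p) (hp q)
  · rw [IsScalarTower.algebraMap_apply (𝓞 K) B (GF r K), hφ]
    exact MvPolynomial.aeval_C _ _
  · rw [hφ]
    exact MvPolynomial.aeval_X _ _

end Pool.Agent.HFW
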