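import Mathlib
import Pool.Agent.HFW.Defs

set_option autoImplicit false

/-!
# Homogenising the parameters of a family
-/

namespace Pool.Agent.HFW

open Pool.Agent.PNH

namespace HmgA

variable {A : Type} [CommRing A] {r : ℕ}

/-- the form of degree `E` attached to a polynomial of degree at most `E` -/
noncomputable def hm (E : ℕ) (P : MvPolynomial (Fin r) A) : MvPolynomial (Fin (r + 1)) A :=
  ∑ m ∈ P.support, MvPolynomial.monomial (Finsupp.cons (E - m.degree) m) (P.coeff m)

lemma aeval_hm {L : Type} [Field L] [Algebra A L] (E : ℕ) (P : MvPolynomial (Fin r) A)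
    (hE : P.totalDegree ≤ E) (t : Fin (r + 1) → L) (ht : t 0 ≠ 0) :
    MvPolynomial.aeval t (hm E P) =
      t 0 ^ E * MvPolynomial.aeval (fun i : Fin r => t i.succ / t 0) P := by
  unfold hm
  rw [map_sum, MvPolynomial.aeval_def _ P, MvPolynomial.eval₂_eq', Finset.mul_sum]
  refine Finset.sum_congr rfl fun m hm => ?_
  have hdeg : m.degree ≤ E := by
    rw [Finsupp.degree]
    exact (MvPolynomial.le_totalDegree hm).trans hE
  rw [MvPolynomial.aeval_monomial, Finsupp.prod_fintype _ _ (fun _ => pow_zero _),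
    Fin.prod_univ_succ]
  simp only [Finsupp.cons_zero, Finsupp.cons_succ]
  have h1 : ∏ i : Fin r, (t i.succ / t 0) ^ m i =
      (∏ i : Fin r, t i.succ ^ m i) / t 0 ^ m.degree := by
    rw [Finsupp.degree_eq_sum, ← Finset.prod_pow_eq_pow_sum, ← Finset.prod_div_distrib]
    exact Finset.prod_congr rfl fun i _ => div_pow _ _ _
  rw [h1]
  have h2 : t 0 ^ E = t 0 ^ (E - m.degree) * t 0 ^ m.degree := by
    rw [← pow_add, Nat.sub_add_cancel hdeg]
  have h3 : t 0 ^ m.degree ≠ 0 := pow_ne_zero _ ht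
  rw [h2]
  field_simp

end HmgA

open HmgA in
theorem exists_hom {A : Type} [CommRing A] {N r d : ℕ} (F : Tup N (MvPolynomial (Fin r) A))
    (hF : ∀ i, (F i).IsHomogeneous d) :
    ∃ (E : ℕ) (G : Tup N (MvPolynomial (Fin (r + 1)) A)), (∀ i, (G i).IsHomogeneous d) ∧
      ∀ (L : Type) [Field L] [Algebra A L] (t : Fin (r + 1) → L), t 0 ≠ 0 →
        spec G t = sc (t 0 ^ E) (spec F fun i => t i.succ / t 0) := by
  obtain ⟨E, hE⟩ : ∃ E : ℕ, E = ∑ i : Fin (N + 1), ∑ α ∈ (F i).support,
    ((F i).coeff α).totalDegree := ⟨_, rfl⟩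
  have hle : ∀ i, ∀ α ∈ (F i).support, ((F i).coeff α).totalDegree ≤ E := by
    intro i α hα
    rw [hE]
    exact (Finset.single_le_sum (f := fun α => ((F i).coeff α).totalDegree)
      (fun _ _ => Nat.zero_le _) hα).trans (Finset.single_le_sum
      (f := fun i : Fin (N + 1) => ∑ α ∈ (F i).support, ((F i).coeff α).totalDegree)
      (fun _ _ => Nat.zero_le _) (Finset.mem_univ i))
  refine ⟨E, fun i => ∑ α ∈ (F i).support, MvPolynomial.monomial α (hm E ((F i).coeff α)),
    fun i => ?_, fun L _ _ t ht => ?_⟩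
  · refine MvPolynomial.IsHomogeneous.sum _ _ _ fun α hα => ?_
    refine MvPolynomial.isHomogeneous_monomial _ ?_
    by_contra h
    exact MvPolynomial.mem_support_iff.1 hα ((hF i).coeff_eq_zero h)
  · funext i
    change MvPolynomial.map _ (∑ α ∈ (F i).support,
      MvPolynomial.monomial α (hm E ((F i).coeff α))) =
      MvPolynomial.C (t 0 ^ E) * MvPolynomial.map _ (F i)
    conv_rhs => rw [(F i).as_sum]
    rw [map_sum, map_sum, Finset.mul_sum]
    refine Finset.sum_congr rfl fun α hα => ?_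
    rw [MvPolynomial.map_monomial, MvPolynomial.map_monomial, MvPolynomial.C_mul_monomial]
    congr 1
    exact aeval_hm E _ (hle i α hα) t ht

end Pool.Agent.HFW
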