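import Mathlib
import Pool.Agent.HFW.Defs
import Pool.Agent.PNH.ParL

set_option autoImplicit false

/-!
# Multiplication of all the forms by a constant
-/

namespace Pool.Agent.HFW

open Pool.Agent.PNH

namespace SclAux

section scale

variable {N d : ℕ} {A : Type} [CommRing A]

theorem app_sc (c : A) (F : Tup N A) (x : Fin (N + 1) → A) : app (sc c F) x = c • app F x := by
  funext i
  unfold app sc
  rw [map_mul, MvPolynomial.eval_C]
  rfl

theorem mp_sc {B : Type} [CommRing B] (f : A →+* B) (c : A) (F : Tup N A) :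
    mp f (sc c F) = sc (f c) (mp f F) := by
  funext i
  unfold mp sc
  rw [map_mul, MvPolynomial.map_C]

theorem sc_sc (c c' : A) (F : Tup N A) : sc c (sc c' F) = sc (c * c') F := by
  funext i
  unfold sc
  rw [map_mul, mul_assoc]

theorem sc_one (F : Tup N A) : sc 1 F = F := by
  funext i
  unfold sc
  rw [map_one, one_mul]

end scale

section field

variable {N d : ℕ} {k : Type} [Field k]

theorem iter_sc (F : Tup N k) (hF : ∀ i, (F i).IsHomogeneous d) (c : k) (hc : c ≠ 0) (n : ℕ)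
    (x : Fin (N + 1) → k) : ∃ a : k, a ≠ 0 ∧ (app (sc c F))^[n] x = a • (app F)^[n] x := by
  induction n with
  | zero => exact ⟨1, one_ne_zero, (one_smul _ _).symm⟩
  | succ n ih =>
    obtain ⟨a, ha, h⟩ := ih
    refine ⟨c * a ^ d, mul_ne_zero hc (pow_ne_zero _ ha), ?_⟩
    rw [Function.iterate_succ_apply', Function.iterate_succ_apply', h, app_sc, app_smul d F hF,
      smul_smul]

theorem par_smul_iff {x y : Fin (N + 1) → k} {a b : k} (ha : a ≠ 0) (hb : b ≠ 0)
    (h : Par (a • x) (b • y)) : Par x y :=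
  ((h.of_smul_left ha).symm.of_smul_left hb).symm

theorem hom_sc (F : Tup N k) (hF : ∀ i, (F i).IsHomogeneous d) (c : k) :
    ∀ i, (sc c F i).IsHomogeneous d := fun i => (hF i).C_mul c

theorem isMor_sc (F : Tup N k) (c : k) (hc : c ≠ 0) (h : IsMor d k F) : IsMor d k (sc c F) := by
  refine ⟨hom_sc F h.1 c, fun x hx => h.2 x ?_⟩
  rw [mp_sc, app_sc] at hx
  exact (smul_eq_zero.1 hx).resolve_left
    ((map_ne_zero_iff _ (algebraMap k (AlgebraicClosure k)).injective).2 hc)

theorem pre_sc_sub (F : Tup N k) (hF : ∀ i, (F i).IsHomogeneous d) (D : ℕ) (c : k) (hc : c ≠ 0) :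
    Pre k D (sc c F) ⊆ Pre k D F := by
  rintro x ⟨h1, h2, a, b, hab, h3⟩
  refine ⟨h1, h2, a, b, hab, ?_⟩
  have hc' : algebraMap k (AlgebraicClosure k) c ≠ 0 :=
    (map_ne_zero_iff _ (algebraMap k (AlgebraicClosure k)).injective).2 hc
  rw [mp_sc] at h3
  obtain ⟨u, hu, h4⟩ := iter_sc (mp (algebraMap k (AlgebraicClosure k)) F) (hom_mp d _ F hF) _ hc'
    a x
  obtain ⟨w, hw, h5⟩ := iter_sc (mp (algebraMap k (AlgebraicClosure k)) F) (hom_mp d _ F hF) _ hc'
    b x
  rw [h4, h5] at h3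
  exact par_smul_iff hu hw h3

end field

end SclAux

open SclAux

theorem mor_sc {k : Type} [Field k] {N d : ℕ} (c : k) (hc : c ≠ 0) (F : Tup N k) :
    IsMor d k (sc c F) ↔ IsMor d k F := by
  refine ⟨fun h => ?_, isMor_sc F c hc⟩
  have h1 := isMor_sc (sc c F) c⁻¹ (inv_ne_zero hc) h
  rwa [sc_sc, inv_mul_cancel₀ hc, sc_one] at h1

theorem pre_sc {k : Type} [Field k] {N d : ℕ} (D : ℕ) (c : k) (hc : c ≠ 0) (F : Tup N k)
    (hF : ∀ i, (F i).IsHomogeneous d) : Pre k D (sc c F) = Pre k D F := by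
  refine Set.Subset.antisymm (pre_sc_sub F hF D c hc) ?_
  have h1 := pre_sc_sub (sc c F) (hom_sc F hF c) D c⁻¹ (inv_ne_zero hc)
  rwa [sc_sc, inv_mul_cancel₀ hc, sc_one] at h1

end Pool.Agent.HFW
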