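import Mathlib
import Pool.Agent.HFW.Defs
import Pool.Agent.HFW.Scl
import Pool.Agent.HFW.Hmg
import Pool.Agent.HFW.Bas
import Pool.Agent.HFW.PreT
import Pool.Agent.HTK.Den
import Pool.Agent.LIM.NullS
import Pool.Agent.PNH.Hun
import Pool.Agent.PNH.ParL

set_option autoImplicit false

/-!
# One hundred per cent of the members of a family, ordered by the Weil height of the parameters
-/

namespace Pool.Agent.HFW

open NumberField
open Pool.Agent.PNH
open Pool.Agent.LIM (GF Null)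
open Pool.Agent.FamK (ev)

/-- The form of the density with a limit. -/
theorem tendsto_of_den {S : Type} [Nonempty S] (h : S → ℝ) (Q : S → Prop)
    (hfin : ∀ B : ℝ, {x | h x ≤ B}.Finite)
    (hden : ∀ ε : ℝ, 0 < ε → ∃ B₀ : ℝ, ∀ B : ℝ, B₀ ≤ B →
      ({x | h x ≤ B ∧ ¬ Q x}.ncard : ℝ) ≤ ε * ({x | h x ≤ B}.ncard : ℝ)) :
    Filter.Tendsto (fun B : ℝ => ({x | h x ≤ B ∧ Q x}.ncard : ℝ) / ({x | h x ≤ B}.ncard : ℝ))
      Filter.atTop (nhds 1) := by
  obtain ⟨x₀⟩ := ‹Nonempty S›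
  rw [Metric.tendsto_atTop]
  intro ε hε
  obtain ⟨B₀, h₀⟩ := hden (ε / 2) (by positivity)
  refine ⟨max B₀ (h x₀), fun B hB => ?_⟩
  have h1 := h₀ B ((le_max_left _ _).trans hB)
  have hpos : 0 < {x | h x ≤ B}.ncard :=
    (Set.ncard_pos (hfin B)).2 ⟨x₀, (le_max_right _ _).trans hB⟩
  have h2 : {x | h x ≤ B ∧ Q x}.ncard + {x | h x ≤ B ∧ ¬ Q x}.ncard = {x | h x ≤ B}.ncard := by
    rw [← Set.ncard_union_eq ?_ ((hfin B).subset fun x hx => hx.1)
      ((hfin B).subset fun x hx => hx.1)]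
    · congr 1
      ext x
      simp only [Set.mem_union, Set.mem_ofPred_eq]
      tauto
    · rw [Set.disjoint_left]
      exact fun x hx hx' => hx'.2 hx.2
  have hpos' : (0 : ℝ) < ({x | h x ≤ B}.ncard : ℝ) := by exact_mod_cast hpos
  have h3 : ({x | h x ≤ B ∧ Q x}.ncard : ℝ) + ({x | h x ≤ B ∧ ¬ Q x}.ncard : ℝ) =
      ({x | h x ≤ B}.ncard : ℝ) := by exact_mod_cast h2
  rw [Real.dist_eq]
  have h4 : ({x | h x ≤ B ∧ Q x}.ncard : ℝ) / ({x | h x ≤ B}.ncard : ℝ) - 1 =
      -(({x | h x ≤ B ∧ ¬ Q x}.ncard : ℝ) / ({x | h x ≤ B}.ncard : ℝ)) := by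
    rw [← h3] at hpos' ⊢
    field_simp
    ring
  rw [h4, abs_neg, abs_of_nonneg (by positivity), div_lt_iff₀ hpos']
  nlinarith

/-! ### the affine space in the projective space -/

section aff

variable {K : Type} [Field K] [NumberField K] {r : ℕ}

theorem cons_ne (s : Fin r → K) : (Fin.cons 1 s : Fin (r + 1) → K) ≠ 0 := fun h =>
  one_ne_zero (α := K) (by simpa using congrFun h 0)

/-- the point `(1 : s)` -/
noncomputable def pt (s : Fin r → K) : Projectivization K (Fin (r + 1) → K) :=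
  Projectivization.mk K (Fin.cons 1 s) (cons_ne s)

theorem pt_height (s : Fin r → K) :
    (pt s).mulHeight = Height.mulHeight (Fin.cons 1 s : Fin (r + 1) → K) :=
  Projectivization.mulHeight_mk _

theorem pt_rep (s : Fin r → K) : (pt s).rep 0 ≠ 0 ∧
    (fun i : Fin r => (pt s).rep i.succ / (pt s).rep 0) = s := by
  obtain ⟨a, ha⟩ := Projectivization.exists_smul_eq_mk_rep K (Fin.cons 1 s : Fin (r + 1) → K)
    (cons_ne s)
  have h0 : (pt s).rep 0 = (a : K) := by
    have h1 := congrFun ha 0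
    rw [Units.smul_def, Pi.smul_apply, Fin.cons_zero, smul_eq_mul, mul_one] at h1
    exact h1.symm
  have h1 : ∀ i : Fin r, (pt s).rep i.succ = (a : K) * s i := by
    intro i
    have h2 := congrFun ha i.succ
    rw [Units.smul_def, Pi.smul_apply, Fin.cons_succ, smul_eq_mul] at h2
    exact h2.symm
  refine ⟨by rw [h0]; exact a.ne_zero, ?_⟩
  funext i
  rw [h0, h1, mul_div_cancel_left₀ _ a.ne_zero]

theorem pt_injective : Function.Injective (pt : (Fin r → K) → _) := fun s s' h => by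
  rw [← (pt_rep s).2, ← (pt_rep s').2, h]

theorem pt_of_rep (P : Projectivization K (Fin (r + 1) → K)) (h : P.rep 0 ≠ 0) :
    pt (fun i : Fin r => P.rep i.succ / P.rep 0) = P := by
  conv_rhs => rw [← P.mk_rep]
  unfold pt
  rw [Projectivization.mk_eq_mk_iff']
  refine ⟨(P.rep 0)⁻¹, ?_⟩
  funext i
  refine Fin.cases ?_ (fun i => ?_) i
  · rw [Pi.smul_apply, smul_eq_mul, inv_mul_cancel₀ h, Fin.cons_zero]
  · rw [Pi.smul_apply, smul_eq_mul, Fin.cons_succ, div_eq_inv_mul]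

/-- the number of parameters of bounded height is finite -/
theorem aff_finite (B : ℝ) :
    {s : Fin r → K | Height.mulHeight (Fin.cons 1 s : Fin (r + 1) → K) ≤ B}.Finite := by
  refine Set.Finite.of_finite_image (f := pt)
    ((Pool.Agent.HTK.pts_finite K (r + 1) B).subset ?_) pt_injective.injOn
  rintro _ ⟨s, hs, rfl⟩
  rw [Set.mem_ofPred_eq, pt_height]
  exact hs

/-- From the projective space to the affine space. -/
theorem aff_of_proj (Good : (Fin r → K) → Prop) (hden : ∀ ε : ℝ, 0 < ε → ∃ B₀ : ℝ, ∀ B : ℝ,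
      B₀ ≤ B → ({P : Projectivization K (Fin (r + 1) → K) | P.mulHeight ≤ B ∧
        (P.rep 0 = 0 ∨ ¬ Good fun i => P.rep i.succ / P.rep 0)}.ncard : ℝ) ≤
          ε * ({P : Projectivization K (Fin (r + 1) → K) | P.mulHeight ≤ B}.ncard : ℝ))
    (ε : ℝ) (hε : 0 < ε) : ∃ B₀ : ℝ, ∀ B : ℝ, B₀ ≤ B →
      (({s : Fin r → K | Height.mulHeight (Fin.cons 1 s : Fin (r + 1) → K) ≤ B ∧
          ¬ Good s}.ncard : ℕ) : ℝ) ≤
        ε * ({s : Fin r → K | Height.mulHeight (Fin.cons 1 s : Fin (r + 1) → K) ≤ B}.ncard : ℕ) := by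
  obtain ⟨B₀, h₀⟩ := hden (min ε 1 / 2) (by positivity)
  refine ⟨B₀, fun B hB => ?_⟩
  have h1 := h₀ B hB
  set A : Set (Projectivization K (Fin (r + 1) → K)) := {P | P.mulHeight ≤ B} with hA
  set b : Set (Projectivization K (Fin (r + 1) → K)) := {P | P.mulHeight ≤ B ∧
    (P.rep 0 = 0 ∨ ¬ Good fun i => P.rep i.succ / P.rep 0)} with hb
  set S : Set (Fin r → K) := {s | Height.mulHeight (Fin.cons 1 s : Fin (r + 1) → K) ≤ B} with hS
  set T : Set (Fin r → K) := {s | Height.mulHeight (Fin.cons 1 s : Fin (r + 1) → K) ≤ B ∧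
    ¬ Good s} with hT
  have hAf : A.Finite := Pool.Agent.HTK.pts_finite K (r + 1) B
  have hbf : b.Finite := hAf.subset fun P hP => hP.1
  have hSf : S.Finite := by
    exact aff_finite B
  have h2 : T.ncard ≤ b.ncard := by
    rw [← Set.ncard_image_of_injective T pt_injective]
    refine Set.ncard_le_ncard ?_ hbf
    rintro _ ⟨s, hs, rfl⟩
    refine ⟨by rw [pt_height]; exact hs.1, Or.inr ?_⟩
    rw [(pt_rep s).2]
    exact hs.2
  have h3 : A.ncard ≤ S.ncard + b.ncard := by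
    rw [← Set.ncard_image_of_injective S pt_injective]
    refine (Set.ncard_le_ncard ?_ ((hSf.image _).union hbf)).trans (Set.ncard_union_le _ _)
    intro P hP
    by_cases h0 : P.rep 0 = 0
    · exact Or.inr ⟨hP, Or.inl h0⟩
    · refine Or.inl ⟨fun i => P.rep i.succ / P.rep 0, ?_, pt_of_rep P h0⟩
      rw [hS, Set.mem_ofPred_eq, ← pt_height, pt_of_rep P h0]
      exact hP
  have h2' : (T.ncard : ℝ) ≤ b.ncard := by exact_mod_cast h2
  have h3' : (A.ncard : ℝ) ≤ S.ncard + b.ncard := by exact_mod_cast h3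
  have h4 : min ε 1 / 2 * (A.ncard : ℝ) ≤ 1 / 2 * A.ncard := by
    refine mul_le_mul_of_nonneg_right ?_ (Nat.cast_nonneg _)
    have := min_le_right ε 1
    linarith
  have h5 : (A.ncard : ℝ) ≤ 2 * S.ncard := by linarith
  calc (T.ncard : ℝ) ≤ b.ncard := h2'
    _ ≤ min ε 1 / 2 * A.ncard := h1
    _ ≤ min ε 1 / 2 * (2 * S.ncard) := mul_le_mul_of_nonneg_left h5 (by positivity)
    _ = min ε 1 * S.ncard := by ring
    _ ≤ ε * S.ncard := mul_le_mul_of_nonneg_right (min_le_left _ _) (Nat.cast_nonneg _)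

end aff

/-- the value of the form `lin ω e i` -/
theorem aeval_lin {K : Type} [Field K] [NumberField K] {q m R : ℕ} (ω : Fin m → 𝓞 K)
    (e : Fin R ≃ Fin q × Fin m) (z : Fin R → ℤ) (i : Fin q) :
    MvPolynomial.aeval (fun t => ((z t : ℤ) : K)) (lin ω e i) =
      ((∑ j : Fin m, z (e.symm (i, j)) • ω j : 𝓞 K) : K) := by
  unfold lin
  rw [map_sum]
  push_cast
  refine Finset.sum_congr rfl fun j _ => ?_
  rw [map_mul, MvPolynomial.aeval_C, MvPolynomial.aeval_X, zsmul_eq_mul, mul_comm]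

theorem ev_lin {K : Type} [Field K] [NumberField K] {q m R : ℕ} (ω : Fin m → 𝓞 K)
    (e : Fin R ≃ Fin q × Fin m) (z : Fin R → ℤ) (i : Fin q) :
    ev z (lin ω e i) = ∑ j : Fin m, z (e.symm (i, j)) • ω j := by
  unfold lin ev
  rw [map_sum]
  refine Finset.sum_congr rfl fun j _ => ?_
  simp [mul_comm]

theorem fam_height (K : Type) [Field K] [NumberField K] {N r d : ℕ} (hd : 2 ≤ d) (D : ℕ)
    (F : Tup N (MvPolynomial (Fin r) (𝓞 K))) (hF : IsMor d (GF r K) (gen F)) (hr : 1 ≤ r)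
    (ε : ℝ) (hε : 0 < ε) : ∃ B₀ : ℝ, ∀ B : ℝ, B₀ ≤ B →
      (({s : Fin r → K | Height.mulHeight (Fin.cons 1 s : Fin (r + 1) → K) ≤ B ∧
          ¬ (IsMor d K (spec F s) ∧ (Pre K D (spec F s)).Finite ∧
            (Pre K D (spec F s)).ncard = (Pre (GF r K) D (gen F)).ncard)}.ncard : ℕ) : ℝ) ≤
        ε * ({s : Fin r → K | Height.mulHeight (Fin.cons 1 s : Fin (r + 1) → K) ≤ B}.ncard : ℕ) := by
  refine aff_of_proj (fun s => IsMor d K (spec F s) ∧ (Pre K D (spec F s)).Finite ∧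
    (Pre K D (spec F s)).ncard = (Pre (GF r K) D (gen F)).ncard) ?_ ε hε
  have hFh : ∀ i, (F i).IsHomogeneous d := hom_of_gen F hF.1
  -- the basis and the numbering
  set m := Module.finrank ℤ (𝓞 K) with hm
  have hm0 : 0 < m := Module.finrank_pos
  set ω : Module.Basis (Fin m) ℤ (𝓞 K) := Module.finBasis ℤ (𝓞 K) with hω
  set e : Fin ((r + 1) * m) ≃ Fin (r + 1) × Fin m := finProdFinEquiv.symm with he
  set R := (r + 1) * m with hR
  obtain ⟨E, G, hG, hGF⟩ := exists_hom F hFh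
  obtain ⟨hL0, iA, ι, y, hy, hyt, hC, hX⟩ := exists_bas K (r := r) (R := R) (fun j => ω j)
    ⟨⟨0, hm0⟩, ω.ne_zero _⟩ e
  -- the family over `ℤ^R`
  obtain ⟨G', hG'⟩ : ∃ G' : Tup N (MvPolynomial (Fin R) (𝓞 K)), G' =
    mp ((MvPolynomial.aeval (lin (fun j => ω j) e) :
      MvPolynomial (Fin (r + 1)) (𝓞 K) →ₐ[𝓞 K] MvPolynomial (Fin R) (𝓞 K)) :
      MvPolynomial (Fin (r + 1)) (𝓞 K) →+* MvPolynomial (Fin R) (𝓞 K)) G := ⟨_, rfl⟩
  obtain ⟨L, hL⟩ : ∃ L : Fin (r + 1) → GF R K, ∀ i, L i =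
    algebraMap (MvPolynomial (Fin R) (𝓞 K)) (GF R K) (lin (fun j => ω j) e i) := ⟨_, fun i => rfl⟩
  have hL0' : L 0 ≠ 0 := by rw [hL]; exact hL0
  have hgen : gen G' = sc (L 0 ^ E) (mp (algebraMap (GF r K) (GF R K)) (gen F)) := by
    have h1 : mp (algebraMap (GF r K) (GF R K)) (gen F) =
        spec F fun i => L i.succ / L 0 := by
      unfold gen spec
      rw [mp_mp]
      congr 1
      refine MvPolynomial.ringHom_ext (fun a => ?_) (fun i => ?_)
      · simp only [RingHom.coe_comp, Function.comp_apply, RingHom.coe_coe, MvPolynomial.aeval_C]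
        rw [← hC a, IsScalarTower.algebraMap_apply (𝓞 K) (MvPolynomial (Fin r) (𝓞 K)) (GF r K)]
        rfl
      · simp only [RingHom.coe_comp, Function.comp_apply, RingHom.coe_coe, MvPolynomial.aeval_X]
        rw [hX i, hL, hL]
    have h2 : gen G' = spec G L := by
      rw [gen_eq, hG', spec_mp]
      congr 1
      funext i
      rw [hL]
      have h3 : (MvPolynomial.aeval (R := 𝓞 K) fun i : Fin R =>
          algebraMap (MvPolynomial (Fin R) (𝓞 K)) (GF R K) (MvPolynomial.X i)) =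
          IsScalarTower.toAlgHom (𝓞 K) (MvPolynomial (Fin R) (𝓞 K)) (GF R K) := by
        refine MvPolynomial.algHom_ext fun i => ?_
        simp
      rw [h3]
      rfl
    rw [h2, hGF (GF R K) L hL0', h1]
  have hgenh : ∀ i, (gen F i).IsHomogeneous d := hF.1
  have hmor : IsMor d (GF R K) (gen G') := by
    rw [hgen, mor_sc (L 0 ^ E) (pow_ne_zero _ hL0')]
    exact mor_mp (gen F) hF
  have hn : (Pre (GF R K) D (gen G')).ncard = (Pre (GF r K) D (gen F)).ncard := by
    rw [hgen, pre_sc (d := d) D (L 0 ^ E) (pow_ne_zero _ hL0') _ (fun i => hom_mp d _ _ hgenh i)]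
    exact pre_transc hd D y hy hyt (gen F) hF
  obtain ⟨-, hnull⟩ := hundred hd D G' hmor
  intro ε hε
  refine Pool.Agent.HTK.den K (r + 1) (by omega) ω e
    (fun t => t 0 = 0 ∨ ¬ (IsMor d K (spec F fun i : Fin r => t i.succ / t 0) ∧
      (Pre K D (spec F fun i : Fin r => t i.succ / t 0)).Finite ∧
      (Pre K D (spec F fun i : Fin r => t i.succ / t 0)).ncard =
        (Pre (GF r K) D (gen F)).ncard)) ?_ ?_ ε hε
  · rintro c t hc ht
    have h1 : (fun i : Fin r => (c • t) i.succ / (c • t) 0) = fun i : Fin r => t i.succ / t 0 := by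
      funext i
      rw [Pi.smul_apply, Pi.smul_apply, smul_eq_mul, smul_eq_mul, mul_div_mul_left _ _ hc]
    rw [h1]
    rcases ht with ht | ht
    · left
      rw [Pi.smul_apply, ht, smul_zero]
    · exact Or.inr ht
  · refine ((Pool.Agent.LIM.null_zeros (lin (fun j => ω j) e 0) ?_).union hnull).mono ?_
    · intro h0
      apply hL0'
      rw [hL, h0, map_zero]
    intro z hz
    by_cases h0 : ((∑ j : Fin m, z (e.symm (0, j)) • ω j : 𝓞 K) : K) = 0
    · left
      rw [Set.mem_ofPred_eq, ev_lin]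
      exact RingOfIntegers.coe_eq_zero_iff.1 h0
    · right
      rcases hz with hz | hz
      · exact absurd hz h0
      · intro hgood
        apply hz
        have h1 : mem z G' = sc (((∑ j : Fin m, z (e.symm (0, j)) • ω j : 𝓞 K) : K) ^ E)
            (spec F fun i : Fin r =>
              ((∑ j : Fin m, z (e.symm (i.succ, j)) • ω j : 𝓞 K) : K) /
                ((∑ j : Fin m, z (e.symm (0, j)) • ω j : 𝓞 K) : K)) := by
          rw [mem_eq, hG', spec_mp]
          simp only [aeval_lin]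
          exact hGF K (fun i => ((∑ j : Fin m, z (e.symm (i, j)) • ω j : 𝓞 K) : K)) h0
        obtain ⟨h2, h3, h4⟩ := hgood
        rw [h1] at h2 h3 h4
        rw [pre_sc (d := d) D _ (pow_ne_zero _ h0) _ (spec_hom F hFh _)] at h3 h4
        exact ⟨(mor_sc _ (pow_ne_zero _ h0) _).1 h2, h3, h4.trans hn⟩

end Pool.Agent.HFW
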