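import Mathlib
import Pool.Agent.HFW.FH
import Pool.Agent.HFW.Bas
import Pool.Agent.HFW.PreT
import Pool.Agent.HTK.Den
import Pool.Agent.HTK.DenS
import Pool.Agent.PNH.LimN
import Pool.Agent.PNH.Bri

set_option autoImplicit false

/-!
# The moments of the number of preperiodic points in a family on the projective line, ordered by the
Weil height of the parameters
-/

namespace Pool.Agent.HFW

open NumberField
open Pool.Agent.PNH
open Pool.Agent.LIM (GF Null)
open Pool.Agent.FAM (Cube itP)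
open Pool.Agent.FamK (ev)
open Pool.Agent.HFW.SclAux (mp_sc app_sc hom_sc)

/-! ### multipliers -/

namespace Mom

/-- `x` is a fixed point with multiplier `m` of the `n`-th iterate of `F`. -/
def Mult {Ω : Type} [Field Ω] (d n : ℕ) (F : Tup 1 Ω) (x m : Ω) : Prop :=
  Polynomial.eval x (itP d n (num F) (den F)).1 =
      x * Polynomial.eval x (itP d n (num F) (den F)).2 ∧
    m * Polynomial.eval x (itP d n (num F) (den F)).2 ^ 2 =
      Polynomial.eval x (Polynomial.derivative (itP d n (num F) (den F)).1) *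
          Polynomial.eval x (itP d n (num F) (den F)).2 -
        Polynomial.eval x (itP d n (num F) (den F)).1 *
          Polynomial.eval x (Polynomial.derivative (itP d n (num F) (den F)).2)

theorem itP_mp {A B : Type} [CommRing A] [CommRing B] (f : A →+* B) (d n : ℕ) (F : Tup 1 A) :
    itP d n (num (mp f F)) (den (mp f F)) =
      ((itP d n (num F) (den F)).1.map f, (itP d n (num F) (den F)).2.map f) := by
  rw [(num_mp f F).1, (num_mp f F).2]
  exact Pool.Agent.FAM.IterAux.itP_map f d n (num F) (den F)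

theorem mult_mp {Ω Ω' : Type} [Field Ω] [Field Ω'] (ψ : Ω →+* Ω') {d n : ℕ} (F : Tup 1 Ω)
    {x m : Ω} (h : Mult d n F x m) : Mult d n (mp ψ F) (ψ x) (ψ m) := by
  obtain ⟨h1, h2⟩ := h
  unfold Mult
  rw [itP_mp]
  simp only [Polynomial.derivative_map, Polynomial.eval_map, Polynomial.eval₂_at_apply]
  have h1' := congrArg ψ h1
  have h2' := congrArg ψ h2
  simp only [map_mul, map_sub, map_pow] at h1' h2'
  exact ⟨h1', h2'⟩

theorem iter_itP {A : Type} [CommRing A] {d : ℕ} (n : ℕ) (F : Tup 1 A)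
    (hF : ∀ i, (F i).IsHomogeneous d) :
    (app (mp Polynomial.C F))^[n] ![1, Polynomial.X] =
      ![(itP d n (num F) (den F)).2, (itP d n (num F) (den F)).1] := by
  induction n with
  | zero => rfl
  | succ n ih =>
    rw [Function.iterate_succ_apply', ih, Pool.Agent.FAM.IterAux.itP_succ]
    have h := app_swap (mp (Polynomial.C : A →+* Polynomial A) F) (hom_mp d _ F hF)
      (itP d n (num F) (den F))
    rw [(num_mp _ F).1, (num_mp _ F).2] at h
    exact h

theorem iter_smul {Ω : Type} [Field Ω] {d : ℕ} (F : Tup 1 Ω) (hF : ∀ i, (F i).IsHomogeneous d)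
    (c : Ω) (hc : c ≠ 0) (n : ℕ) (v : Fin 2 → Polynomial Ω) : ∃ a : Ω, a ≠ 0 ∧
      (app (mp Polynomial.C (sc c F)))^[n] v =
        Polynomial.C a • (app (mp Polynomial.C F))^[n] v := by
  induction n with
  | zero => exact ⟨1, one_ne_zero, by simp⟩
  | succ n ih =>
    obtain ⟨a, ha, h⟩ := ih
    refine ⟨c * a ^ d, mul_ne_zero hc (pow_ne_zero _ ha), ?_⟩
    rw [Function.iterate_succ_apply', Function.iterate_succ_apply', h, mp_sc, app_sc,
      app_smul d (mp Polynomial.C F) (hom_mp d _ F hF), smul_smul, ← map_pow, ← map_mul]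

theorem mult_sc {Ω : Type} [Field Ω] {d n : ℕ} (F : Tup 1 Ω) (hF : ∀ i, (F i).IsHomogeneous d)
    (c : Ω) (hc : c ≠ 0) {x m : Ω} (h : Mult d n F x m) : Mult d n (sc c F) x m := by
  obtain ⟨a, -, h1⟩ := iter_smul F hF c hc n ![1, Polynomial.X]
  have hF' : ∀ i, (sc c F i).IsHomogeneous d := hom_sc F hF c
  rw [iter_itP (d := d) n F hF, iter_itP (d := d) n (sc c F) hF'] at h1
  have e1 : (itP d n (num (sc c F)) (den (sc c F))).1 =
      Polynomial.C a * (itP d n (num F) (den F)).1 := congrFun h1 1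
  have e2 : (itP d n (num (sc c F)) (den (sc c F))).2 =
      Polynomial.C a * (itP d n (num F) (den F)).2 := congrFun h1 0
  obtain ⟨h2, h3⟩ := h
  unfold Mult
  rw [e1, e2]
  simp only [Polynomial.derivative_C_mul, Polynomial.eval_mul, Polynomial.eval_C]
  constructor
  · rw [h2]
    ring
  · rw [mul_pow, mul_left_comm, h3]
    ring

theorem transc_int {Ω Ω' : Type} [Field Ω] [Field Ω'] (i : Algebra ℤ Ω) (i' : Algebra ℤ Ω')
    (ψ : Ω →+* Ω') {m : Ω} (h : @Transcendental ℤ Ω _ _ i m) :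
    @Transcendental ℤ Ω' _ _ i' (ψ m) := by
  have hi : i = Ring.toIntAlgebra Ω := Subsingleton.elim _ _
  have hi' : i' = Ring.toIntAlgebra Ω' := Subsingleton.elim _ _
  subst hi
  subst hi'
  intro halg
  exact h ((isAlgebraic_algHom_iff ψ.toIntAlgHom ψ.injective).1 halg)

theorem aeval_eq {A Ω : Type} [CommRing A] [Field Ω] [Algebra A Ω] (P : Polynomial A) (x : Ω) :
    Polynomial.aeval x P = Polynomial.eval x (P.map (algebraMap A Ω)) := by
  rw [Polynomial.eval_map_algebraMap]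

/-- the multipliers of the family over the algebraic closure -/
theorem varies_iff {K : Type} [Field K] [NumberField K] {r d : ℕ}
    (F : Tup 1 (MvPolynomial (Fin r) (𝓞 K))) :
    Pool.Agent.FamK.Varies d (num F) (den F) ↔ ∃ n : ℕ, 1 ≤ n ∧
      ∃ x m : AlgebraicClosure (GF r K), Mult d n
        (mp (algebraMap (GF r K) (AlgebraicClosure (GF r K))) (gen F)) x m ∧
        Transcendental ℤ m := by
  have h1 : mp (algebraMap (GF r K) (AlgebraicClosure (GF r K))) (gen F) =
      mp (algebraMap (MvPolynomial (Fin r) (𝓞 K)) (AlgebraicClosure (GF r K))) F := by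
    unfold gen
    rw [mp_mp, ← IsScalarTower.algebraMap_eq]
  rw [h1]
  unfold Pool.Agent.FamK.Varies Pool.Agent.FamK.Varies1 Mult
  simp only [itP_mp, Polynomial.derivative_map, aeval_eq, and_assoc]

end Mom

open Mom

/-- The multipliers of a family obtained by a change of the parameters and multiplication by a
constant. -/
theorem varies_of {K : Type} [Field K] [NumberField K] {r R d : ℕ} [Algebra (GF r K) (GF R K)]
    (F : Tup 1 (MvPolynomial (Fin r) (𝓞 K))) (hF : ∀ i, (gen F i).IsHomogeneous d)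
    (G : Tup 1 (MvPolynomial (Fin R) (𝓞 K))) (c : GF R K) (hc : c ≠ 0)
    (hG : gen G = sc c (mp (algebraMap (GF r K) (GF R K)) (gen F)))
    (h : Pool.Agent.FamK.Varies d (num F) (den F)) : Pool.Agent.FamK.Varies d (num G) (den G) := by
  rw [varies_iff] at h ⊢
  obtain ⟨n, hn, x, m, h1, h2⟩ := h
  let ψ : AlgebraicClosure (GF r K) →ₐ[GF r K] AlgebraicClosure (GF R K) := IsAlgClosed.lift
  refine ⟨n, hn, ψ x, ψ m, ?_, ?_⟩
  · have h3 : mp (algebraMap (GF R K) (AlgebraicClosure (GF R K))) (gen G) =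
        sc (algebraMap (GF R K) (AlgebraicClosure (GF R K)) c)
          (mp (ψ : AlgebraicClosure (GF r K) →+* AlgebraicClosure (GF R K))
            (mp (algebraMap (GF r K) (AlgebraicClosure (GF r K))) (gen F))) := by
      rw [hG, mp_sc, mp_mp, mp_mp]
      congr 2
      rw [AlgHom.comp_algebraMap, ← IsScalarTower.algebraMap_eq]
    rw [h3]
    refine mult_sc _ (fun i => hom_mp d _ _ (hom_mp d _ _ hF) i) _ ?_ ?_
    · exact (map_ne_zero_iff _ (algebraMap (GF R K) (AlgebraicClosure (GF R K))).injective).2 hc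
    · exact mult_mp (ψ : AlgebraicClosure (GF r K) →+* AlgebraicClosure (GF R K)) _ h1
  · exact transc_int _ _ (ψ : AlgebraicClosure (GF r K) →+* AlgebraicClosure (GF R K)) h2

/-! ### from the projective space to the affine space -/

section aff

variable {K : Type} [Field K] [NumberField K] {r : ℕ}

/-- Sums over the points of the affine space. -/
theorem aff_sum (g : (Fin (r + 1) → K) → ℝ) (hg : ∀ t, 0 ≤ g t)
    (hsc : ∀ (c : K) (t : Fin (r + 1) → K), c ≠ 0 → g (c • t) = g t)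
    (hden : ∀ ε : ℝ, 0 < ε → ∃ B₀ : ℝ, ∀ B : ℝ, B₀ ≤ B →
      ({P : Projectivization K (Fin (r + 1) → K) | P.mulHeight ≤ B ∧ P.rep 0 = 0}.ncard : ℝ) ≤
        ε * ({P : Projectivization K (Fin (r + 1) → K) | P.mulHeight ≤ B}.ncard : ℝ))
    (C B₁ : ℝ) (hC0 : 0 ≤ C) (hC : ∀ B : ℝ, B₁ ≤ B →
      ∑ P ∈ (Pool.Agent.HTK.pts_finite K (r + 1) B).toFinset, g P.rep ≤
        C * ({P : Projectivization K (Fin (r + 1) → K) | P.mulHeight ≤ B}.ncard : ℝ)) :
    ∃ C' B₀ : ℝ, ∀ B : ℝ, B₀ ≤ B →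
      ∑ s ∈ (aff_finite (K := K) (r := r) B).toFinset, g (Fin.cons 1 s) ≤
        C' * ({s : Fin r → K | Height.mulHeight (Fin.cons 1 s : Fin (r + 1) → K) ≤ B}.ncard :
          ℝ) := by
  classical
  obtain ⟨B₀, h₀⟩ := hden (1 / 2) (by norm_num)
  refine ⟨2 * C, max B₀ B₁, fun B hB => ?_⟩
  have h1 := h₀ B ((le_max_left _ _).trans hB)
  have h2 := hC B ((le_max_right _ _).trans hB)
  have hgp : ∀ s : Fin r → K, g (Fin.cons 1 s) = g (pt s).rep := by
    intro s
    obtain ⟨a, ha⟩ := Projectivization.exists_smul_eq_mk_rep K (Fin.cons 1 s : Fin (r + 1) → K)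
      (cons_ne s)
    have h3 : (pt s).rep = (a : K) • (Fin.cons 1 s : Fin (r + 1) → K) := ha.symm
    rw [h3, hsc _ _ a.ne_zero]
  have h3 : ∑ s ∈ (aff_finite (K := K) (r := r) B).toFinset, g (Fin.cons 1 s) ≤
      ∑ P ∈ (Pool.Agent.HTK.pts_finite K (r + 1) B).toFinset, g P.rep := by
    rw [Finset.sum_congr rfl fun s _ => hgp s,
      ← Finset.sum_image (f := fun P : Projectivization K (Fin (r + 1) → K) => g P.rep)
        (s := (aff_finite (K := K) (r := r) B).toFinset) (g := pt) pt_injective.injOn]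
    refine Finset.sum_le_sum_of_subset_of_nonneg ?_ fun P _ _ => hg _
    intro P hP
    rw [Finset.mem_image] at hP
    obtain ⟨s, hs, rfl⟩ := hP
    rw [Set.Finite.mem_toFinset] at hs ⊢
    rw [Set.mem_ofPred_eq, pt_height]
    exact hs
  have h4 : ({P : Projectivization K (Fin (r + 1) → K) | P.mulHeight ≤ B}.ncard : ℝ) ≤
      2 * ({s : Fin r → K | Height.mulHeight (Fin.cons 1 s : Fin (r + 1) → K) ≤ B}.ncard :
        ℝ) := by
    have hAf := Pool.Agent.HTK.pts_finite K (r + 1) B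
    have h5 : {P : Projectivization K (Fin (r + 1) → K) | P.mulHeight ≤ B}.ncard ≤
        {s : Fin r → K | Height.mulHeight (Fin.cons 1 s : Fin (r + 1) → K) ≤ B}.ncard +
        {P : Projectivization K (Fin (r + 1) → K) | P.mulHeight ≤ B ∧ P.rep 0 = 0}.ncard := by
      rw [← Set.ncard_image_of_injective
        {s : Fin r → K | Height.mulHeight (Fin.cons 1 s : Fin (r + 1) → K) ≤ B} pt_injective]
      refine (Set.ncard_le_ncard ?_ (((aff_finite B).image _).union
        (hAf.subset fun P hP => hP.1))).trans (Set.ncard_union_le _ _)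
      intro P hP
      by_cases h0 : P.rep 0 = 0
      · exact Or.inr ⟨hP, h0⟩
      · refine Or.inl ⟨fun i => P.rep i.succ / P.rep 0, ?_, pt_of_rep P h0⟩
        rw [Set.mem_ofPred_eq, ← pt_height, pt_of_rep P h0]
        exact hP
    have h5' : ({P : Projectivization K (Fin (r + 1) → K) | P.mulHeight ≤ B}.ncard : ℝ) ≤
        ({s : Fin r → K | Height.mulHeight (Fin.cons 1 s : Fin (r + 1) → K) ≤ B}.ncard : ℝ) +
        ({P : Projectivization K (Fin (r + 1) → K) | P.mulHeight ≤ B ∧ P.rep 0 = 0}.ncard :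
          ℝ) := by
      exact_mod_cast h5
    linarith
  calc ∑ s ∈ (aff_finite (K := K) (r := r) B).toFinset, g (Fin.cons 1 s) ≤
      ∑ P ∈ (Pool.Agent.HTK.pts_finite K (r + 1) B).toFinset, g P.rep := h3
    _ ≤ C * ({P : Projectivization K (Fin (r + 1) → K) | P.mulHeight ≤ B}.ncard : ℝ) := h2
    _ ≤ C * (2 * ({s : Fin r → K | Height.mulHeight (Fin.cons 1 s : Fin (r + 1) → K) ≤ B}.ncard :
        ℝ)) := mul_le_mul_of_nonneg_left h4 hC0
    _ = 2 * C * ({s : Fin r → K | Height.mulHeight (Fin.cons 1 s : Fin (r + 1) → K) ≤ B}.ncard :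
        ℝ) := by ring

end aff

/-- The homogenised family over the integral points. -/
theorem exists_fam (K : Type) [Field K] [NumberField K] {N r d : ℕ}
    (F : Tup N (MvPolynomial (Fin r) (𝓞 K))) (hF : IsMor d (GF r K) (gen F)) {m R : ℕ}
    (ω : Module.Basis (Fin m) ℤ (𝓞 K)) (hm : 0 < m) (e : Fin R ≃ Fin (r + 1) × Fin m) :
    ∃ (_ : Algebra (GF r K) (GF R K)) (E : ℕ) (c : GF R K)
      (G : Tup N (MvPolynomial (Fin R) (𝓞 K))), c ≠ 0 ∧
      lin (fun j => ω j) e 0 ≠ 0 ∧ IsMor d (GF R K) (gen G) ∧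
      gen G = sc c (mp (algebraMap (GF r K) (GF R K)) (gen F)) ∧
      ∀ z : Fin R → ℤ, ((∑ j : Fin m, z (e.symm (0, j)) • ω j : 𝓞 K) : K) ≠ 0 →
        mem z G = sc (((∑ j : Fin m, z (e.symm (0, j)) • ω j : 𝓞 K) : K) ^ E)
          (spec F fun i : Fin r =>
            ((∑ j : Fin m, z (e.symm (i.succ, j)) • ω j : 𝓞 K) : K) /
              ((∑ j : Fin m, z (e.symm (0, j)) • ω j : 𝓞 K) : K)) := by
  have hFh : ∀ i, (F i).IsHomogeneous d := hom_of_gen F hF.1
  obtain ⟨E, G, hG, hGF⟩ := exists_hom F hFh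
  obtain ⟨hL0, iA, ι, y, hy, hyt, hC, hX⟩ := exists_bas K (r := r) (R := R) (fun j => ω j)
    ⟨⟨0, hm⟩, ω.ne_zero _⟩ e
  obtain ⟨G', hG'⟩ : ∃ G' : Tup N (MvPolynomial (Fin R) (𝓞 K)), G' =
    mp ((MvPolynomial.aeval (lin (fun j => ω j) e) :
      MvPolynomial (Fin (r + 1)) (𝓞 K) →ₐ[𝓞 K] MvPolynomial (Fin R) (𝓞 K)) :
      MvPolynomial (Fin (r + 1)) (𝓞 K) →+* MvPolynomial (Fin R) (𝓞 K)) G := ⟨_, rfl⟩
  obtain ⟨L, hL⟩ : ∃ L : Fin (r + 1) → GF R K, ∀ i, L i =
    algebraMap (MvPolynomial (Fin R) (𝓞 K)) (GF R K) (lin (fun j => ω j) e i) := ⟨_, fun i => rfl⟩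
  have hL0' : L 0 ≠ 0 := by rw [hL]; exact hL0
  have hgen : gen G' = sc (L 0 ^ E) (mp (algebraMap (GF r K) (GF R K)) (gen F)) := by
    have h1 : mp (algebraMap (GF r K) (GF R K)) (gen F) =
        spec F fun i => L i.succ / L 0 := by
      unfold gen spec
      rw [mp_mp]
      congr 1
      refine MvPolynomial.ringHom_ext (fun a => ?_) (fun i => ?_)
      · simp only [RingHom.coe_comp, Function.comp_apply, RingHom.coe_coe, MvPolynomial.aeval_C]
        rw [← hC a, IsScalarTower.algebraMap_apply (𝓞 K) (MvPolynomial (Fin r) (𝓞 K)) (GF r K)]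
        rfl
      · simp only [RingHom.coe_comp, Function.comp_apply, RingHom.coe_coe, MvPolynomial.aeval_X]
        rw [hX i, hL, hL]
    have h2 : gen G' = spec G L := by
      rw [gen_eq, hG', spec_mp]
      congr 1
      funext i
      rw [hL]
      have h3 : (MvPolynomial.aeval (R := 𝓞 K) fun i : Fin R =>
          algebraMap (MvPolynomial (Fin R) (𝓞 K)) (GF R K) (MvPolynomial.X i)) =
          IsScalarTower.toAlgHom (𝓞 K) (MvPolynomial (Fin R) (𝓞 K)) (GF R K) := by
        refine MvPolynomial.algHom_ext fun i => ?_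
        simp
      rw [h3]
      rfl
    rw [h2, hGF (GF R K) L hL0', h1]
  have hmor : IsMor d (GF R K) (gen G') := by
    rw [hgen, mor_sc (L 0 ^ E) (pow_ne_zero _ hL0')]
    exact mor_mp (gen F) hF
  refine ⟨iA, E, L 0 ^ E, G', pow_ne_zero _ hL0', ?_, hmor, hgen, fun z h0 => ?_⟩
  · intro h0
    apply hL0'
    rw [hL, h0, map_zero]
  · rw [mem_eq, hG', spec_mp]
    simp only [aeval_lin]
    exact hGF K (fun i => ((∑ j : Fin m, z (e.symm (i, j)) • ω j : 𝓞 K) : K)) h0

open Classical in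
/-- The means of `exp (n ^ (1/3))` over the members of a family on the projective line, ordered by
height, are bounded. -/
theorem fam_bound (K : Type) [Field K] [NumberField K] {r d : ℕ} (hd : 2 ≤ d) (D : ℕ)
    (F : Tup 1 (MvPolynomial (Fin r) (𝓞 K))) (hF : IsMor d (GF r K) (gen F))
    (hv : Pool.Agent.FamK.Varies d (num F) (den F)) (hr : 1 ≤ r) :
    ∃ C B₀ : ℝ, ∀ B : ℝ, B₀ ≤ B → ∑ s ∈ (aff_finite (K := K) (r := r) B).toFinset,
      (if IsMor d K (spec F s) then
        Real.exp (((Pre K D (spec F s)).ncard : ℝ) ^ ((1 : ℝ) / 3)) else 0) ≤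
      C * ({s : Fin r → K | Height.mulHeight (Fin.cons 1 s : Fin (r + 1) → K) ≤ B}.ncard :
        ℝ) := by
  have hFh : ∀ i, (F i).IsHomogeneous d := hom_of_gen F hF.1
  set m := Module.finrank ℤ (𝓞 K) with hm
  have hm0 : 0 < m := Module.finrank_pos
  set ω : Module.Basis (Fin m) ℤ (𝓞 K) := Module.finBasis ℤ (𝓞 K) with hω
  set e : Fin ((r + 1) * m) ≃ Fin (r + 1) × Fin m := finProdFinEquiv.symm with he
  obtain ⟨iA, E, c, G, hc, hL, hmor, hgen, hmem⟩ := exists_fam K F hF ω hm0 e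
  obtain ⟨⟨C, hC⟩, -⟩ := limitN hd D G hmor (varies_of F hF.1 G c hc hgen hv)
  set g : (Fin (r + 1) → K) → ℝ := fun t =>
    if t 0 ≠ 0 ∧ IsMor d K (spec F fun i : Fin r => t i.succ / t 0) then
      Real.exp (((Pre K D (spec F fun i : Fin r => t i.succ / t 0)).ncard : ℝ) ^ ((1 : ℝ) / 3))
    else 0 with hg
  have hg0 : ∀ t, 0 ≤ g t := by
    intro t
    simp only [hg]
    split_ifs
    · exact (Real.exp_pos _).le
    · exact le_rfl
  have hgsc : ∀ (c : K) (t : Fin (r + 1) → K), c ≠ 0 → g (c • t) = g t := by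
    intro a t ha
    have h1 : (fun i : Fin r => (a • t) i.succ / (a • t) 0) = fun i : Fin r => t i.succ / t 0 := by
      funext i
      rw [Pi.smul_apply, Pi.smul_apply, smul_eq_mul, smul_eq_mul, mul_div_mul_left _ _ ha]
    have h2 : (a • t) 0 ≠ 0 ↔ t 0 ≠ 0 := by
      rw [Pi.smul_apply, smul_eq_mul, mul_ne_zero_iff]
      exact ⟨fun h => h.2, fun h => ⟨ha, h⟩⟩
    simp only [hg]
    rw [h1]
    simp only [h2]
  have hsum : ∀ H : ℕ, 1 ≤ H → ∑ z ∈ Cube ((r + 1) * m) H, g (fun i =>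
      ((∑ j : Fin m, z (e.symm (i, j)) • ω j : 𝓞 K) : K)) ≤
        C * (2 * (H : ℝ) + 1) ^ ((r + 1) * m) := by
    intro H hH
    refine le_trans ?_ (hC H hH)
    rw [Finset.sum_filter]
    refine Finset.sum_le_sum fun z _ => ?_
    simp only [hg]
    split_ifs with h1 h2 h2
    · rw [hmem z h1.1, pre_sc (d := d) D _ (pow_ne_zero _ h1.1) _ (spec_hom F hFh _)]
    · exfalso
      apply h2
      rw [hmem z h1.1]
      exact (mor_sc _ (pow_ne_zero _ h1.1) _).2 h1.2
    · exact (Real.exp_pos _).le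
    · exact le_rfl
  obtain ⟨C', B₀, hC'0, hC'⟩ := Pool.Agent.HTK.den_sum K (r + 1) (by omega) ω e g hg0 hgsc C hsum
  have hden : ∀ ε : ℝ, 0 < ε → ∃ B₀ : ℝ, ∀ B : ℝ, B₀ ≤ B →
      ({P : Projectivization K (Fin (r + 1) → K) | P.mulHeight ≤ B ∧ P.rep 0 = 0}.ncard : ℝ) ≤
        ε * ({P : Projectivization K (Fin (r + 1) → K) | P.mulHeight ≤ B}.ncard : ℝ) := by
    intro ε hε
    refine Pool.Agent.HTK.den K (r + 1) (by omega) ω e (fun t => t 0 = 0) ?_ ?_ ε hε
    · intro a t _ ht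
      rw [Pi.smul_apply, ht, smul_zero]
    · refine (Pool.Agent.LIM.null_zeros (lin (fun j => ω j) e 0) hL).mono fun z hz => ?_
      rw [Set.mem_ofPred_eq, ev_lin]
      exact RingOfIntegers.coe_eq_zero_iff.1 hz
  obtain ⟨C₂, B₂, h₂⟩ := aff_sum g hg0 hgsc hden C' B₀ hC'0 hC'
  refine ⟨C₂, B₂, fun B hB => le_trans (le_of_eq ?_) (h₂ B hB)⟩
  refine Finset.sum_congr rfl fun s _ => ?_
  simp only [hg]
  have h1 : (fun i : Fin r => (Fin.cons 1 s : Fin (r + 1) → K) i.succ /
      (Fin.cons 1 s : Fin (r + 1) → K) 0) = s := by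
    funext i
    rw [Fin.cons_succ, Fin.cons_zero, div_one]
  rw [h1, Fin.cons_zero]
  simp only [ne_eq, one_ne_zero, not_false_eq_true, true_and]

end Pool.Agent.HFW
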