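import Mathlib
import Pool.Agent.HFW.FH
import Pool.Agent.HFW.Mom
import Pool.Agent.HTK.Ana

set_option autoImplicit false

/-!
# The members of a family: exceptions and sums in the two orderings
-/

namespace Pool.Agent.HFW

open NumberField
open Pool.Agent.PNH
open Pool.Agent.LIM (GF Null)
open Pool.Agent.FAM (Cube)
open Pool.Agent.FamK (ev)

/-! ### integral points, ordered by the maximum of the coordinates -/

theorem ball_eq {r : ℕ} {B : ℝ} (hB : 0 ≤ B) :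
    {s : Fin r → ℤ | ‖s‖ ≤ B} = (Cube r ⌊B⌋₊ : Set (Fin r → ℤ)) := by
  ext s
  rw [Set.mem_ofPred_eq, Finset.mem_coe, Pool.Agent.FAM.mem_Cube, pi_norm_le_iff_of_nonneg hB]
  refine forall_congr' fun i => ?_
  rw [Int.norm_eq_abs, ← Int.cast_abs]
  have h1 : ((|s i| : ℤ) : ℝ) = ((s i).natAbs : ℝ) := by
    rw [Int.abs_eq_natAbs]
    rfl
  rw [h1, ← Nat.le_floor_iff hB, Int.abs_eq_natAbs]
  exact_mod_cast Iff.rfl

theorem ball_finite {r : ℕ} (B : ℝ) : {s : Fin r → ℤ | ‖s‖ ≤ B}.Finite := by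
  rcases le_or_gt 0 B with hB | hB
  · rw [ball_eq hB]
    exact Finset.finite_toSet _
  · refine Set.finite_empty.subset fun s hs => ?_
    have h1 : ‖s‖ ≤ B := hs
    have := norm_nonneg s
    exact absurd (this.trans h1) (not_le.2 hB)

theorem ball_ncard {r : ℕ} {B : ℝ} (hB : 0 ≤ B) :
    ({s : Fin r → ℤ | ‖s‖ ≤ B}.ncard : ℝ) = (2 * (⌊B⌋₊ : ℝ) + 1) ^ r := by
  rw [ball_eq hB, Set.ncard_coe_finset, Pool.Agent.FAM.card_Cube]
  push_cast
  rfl

theorem int_exc {r : ℕ} (Q : (Fin r → ℤ) → Prop) (h : Null {s : Fin r → ℤ | ¬ Q s}) (ε : ℝ)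
    (hε : 0 < ε) : ∃ B₀ : ℝ, ∀ B : ℝ, B₀ ≤ B →
      (({s : Fin r → ℤ | ‖s‖ ≤ B ∧ ¬ Q s}.ncard : ℕ) : ℝ) ≤
        ε * ({s : Fin r → ℤ | ‖s‖ ≤ B}.ncard : ℕ) := by
  obtain ⟨H₀, hH₀⟩ := h ε hε
  refine ⟨H₀, fun B hB => ?_⟩
  have hB0 : 0 ≤ B := (Nat.cast_nonneg H₀).trans hB
  have h1 := hH₀ ⌊B⌋₊ (Nat.le_floor hB)
  have h2 : {s : Fin r → ℤ | ‖s‖ ≤ B ∧ ¬ Q s} =
      (Cube r ⌊B⌋₊ : Set (Fin r → ℤ)) ∩ {s : Fin r → ℤ | ¬ Q s} := by
    rw [← ball_eq hB0]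
    rfl
  rw [h2, ball_ncard hB0]
  exact h1

open Classical in
theorem int_bd {K : Type} [Field K] [NumberField K] {r d : ℕ} (hd : 2 ≤ d) (D : ℕ)
    (F : Tup 1 (MvPolynomial (Fin r) (𝓞 K))) (hF : IsMor d (GF r K) (gen F))
    (hv : Pool.Agent.FamK.Varies d (num F) (den F)) : ∃ C : ℝ, ∀ B : ℝ, 1 ≤ B →
      ∑ᶠ s ∈ {s : Fin r → ℤ | ‖s‖ ≤ B}, (if IsMor d K (spec F fun i => ((s i : ℤ) : K)) then
        Real.exp (((Pre K D (spec F fun i => ((s i : ℤ) : K))).ncard : ℝ) ^ ((1 : ℝ) / 3))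
        else 0) ≤ C * ({s : Fin r → ℤ | ‖s‖ ≤ B}.ncard : ℝ) := by
  obtain ⟨⟨C, hC⟩, -⟩ := limitN hd D F hF hv
  refine ⟨C, fun B hB => ?_⟩
  have hB0 : 0 ≤ B := by linarith
  have h1 := hC ⌊B⌋₊ (Nat.le_floor (by simpa using hB))
  rw [ball_ncard hB0, ball_eq hB0, finsum_mem_coe_finset]
  rw [Finset.sum_filter] at h1
  simp only [mem_eq] at h1
  exact h1

/-! ### points over the field, ordered by height -/

section aff

variable {K : Type} [Field K] [NumberField K]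

theorem aff_base (r : ℕ) : Height.mulHeight (Fin.cons 1 0 : Fin (r + 1) → K) ≤ 1 := by
  have h1 : (Fin.cons 1 0 : Fin (r + 1) → 𝓞 K) ≠ 0 := fun h =>
    one_ne_zero (α := 𝓞 K) (by simpa using congrFun h 0)
  have h2 := Pool.Agent.HTK.mulHeight_le h1 1 zero_le_one (by
    intro i v
    refine Fin.cases ?_ (fun i => ?_) i
    · simp
    · simp)
  rw [one_pow] at h2
  refine le_trans (le_of_eq ?_) h2
  congr 1
  funext i
  refine Fin.cases ?_ (fun i => ?_) i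
  · simp
  · simp

theorem aff_zero {r : ℕ} {B : ℝ} (hB : 1 ≤ B) :
    0 < {s : Fin r → K | Height.mulHeight (Fin.cons 1 s : Fin (r + 1) → K) ≤ B}.ncard :=
  (Set.ncard_pos (aff_finite B)).2 ⟨0, (aff_base r).trans hB⟩

theorem fam_exc {N r d : ℕ} (hd : 2 ≤ d) (D : ℕ)
    (F : Tup N (MvPolynomial (Fin r) (𝓞 K))) (hF : IsMor d (GF r K) (gen F))
    (ε : ℝ) (hε : 0 < ε) : ∃ B₀ : ℝ, ∀ B : ℝ, B₀ ≤ B →
      (({s : Fin r → K | Height.mulHeight (Fin.cons 1 s : Fin (r + 1) → K) ≤ B ∧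
          ¬ (IsMor d K (spec F s) ∧ (Pre K D (spec F s)).Finite ∧
            (Pre K D (spec F s)).ncard = (Pre (GF r K) D (gen F)).ncard)}.ncard : ℕ) : ℝ) ≤
        ε * ({s : Fin r → K | Height.mulHeight (Fin.cons 1 s : Fin (r + 1) → K) ≤ B}.ncard :
          ℕ) := by
  rcases Nat.eq_zero_or_pos r with rfl | hr
  · obtain ⟨-, h⟩ := hundred hd D F hF
    obtain ⟨H₀, hH₀⟩ := h (1 / 2) (by norm_num)
    have h1 := hH₀ H₀ le_rfl
    rw [pow_zero, mul_one] at h1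
    have h2 : ((Cube 0 H₀ : Set (Fin 0 → ℤ)) ∩ {s : Fin 0 → ℤ | ¬ (IsMor d K (mem s F) ∧
      (Pre K D (mem s F)).Finite ∧
      (Pre K D (mem s F)).ncard = (Pre (GF 0 K) D (gen F)).ncard)}).ncard = 0 := by
      by_contra h0
      have h3 : (1 : ℝ) ≤ (((Cube 0 H₀ : Set (Fin 0 → ℤ)) ∩ {s : Fin 0 → ℤ |
        ¬ (IsMor d K (mem s F) ∧ (Pre K D (mem s F)).Finite ∧
        (Pre K D (mem s F)).ncard = (Pre (GF 0 K) D (gen F)).ncard)}).ncard : ℝ) := by
        exact_mod_cast Nat.one_le_iff_ne_zero.2 h0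
      linarith
    rw [Set.ncard_eq_zero ((Finset.finite_toSet _).inter_of_left _)] at h2
    refine ⟨0, fun B _ => ?_⟩
    have h4 : {s : Fin 0 → K | Height.mulHeight (Fin.cons 1 s : Fin (0 + 1) → K) ≤ B ∧
          ¬ (IsMor d K (spec F s) ∧ (Pre K D (spec F s)).Finite ∧
            (Pre K D (spec F s)).ncard = (Pre (GF 0 K) D (gen F)).ncard)} = ∅ := by
      rw [Set.eq_empty_iff_forall_notMem]
      rintro s ⟨-, hs⟩
      apply hs
      have h5 : (fun i => (((fun i => i.elim0 : Fin 0 → ℤ) i : ℤ) : K)) = s :=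
        Subsingleton.elim _ _
      by_contra hbad
      have h6 : (fun i => i.elim0 : Fin 0 → ℤ) ∈ ((Cube 0 H₀ : Set (Fin 0 → ℤ)) ∩
        {s : Fin 0 → ℤ | ¬ (IsMor d K (mem s F) ∧ (Pre K D (mem s F)).Finite ∧
        (Pre K D (mem s F)).ncard = (Pre (GF 0 K) D (gen F)).ncard)}) := by
        refine ⟨?_, ?_⟩
        · rw [Finset.mem_coe, Pool.Agent.FAM.mem_Cube]
          exact fun i => i.elim0
        · rw [Set.mem_ofPred_eq, mem_eq, h5]
          exact hbad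
      rw [h2] at h6
      exact h6
    rw [h4, Set.ncard_empty, Nat.cast_zero]
    positivity
  · exact fam_height K hd D F hF hr ε hε

open Classical in
theorem fam_bd {r d : ℕ} (hd : 2 ≤ d) (D : ℕ)
    (F : Tup 1 (MvPolynomial (Fin r) (𝓞 K))) (hF : IsMor d (GF r K) (gen F))
    (hv : Pool.Agent.FamK.Varies d (num F) (den F)) : ∃ C : ℝ, ∀ B : ℝ, 1 ≤ B →
      ∑ᶠ s ∈ {s : Fin r → K | Height.mulHeight (Fin.cons 1 s : Fin (r + 1) → K) ≤ B},
        (if IsMor d K (spec F s) then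
          Real.exp (((Pre K D (spec F s)).ncard : ℝ) ^ ((1 : ℝ) / 3)) else 0) ≤
      C * ({s : Fin r → K | Height.mulHeight (Fin.cons 1 s : Fin (r + 1) → K) ≤ B}.ncard :
        ℝ) := by
  have hnn : ∀ s : Fin r → K, 0 ≤ (if IsMor d K (spec F s) then
      Real.exp (((Pre K D (spec F s)).ncard : ℝ) ^ ((1 : ℝ) / 3)) else 0) := by
    intro s
    split_ifs
    · exact (Real.exp_pos _).le
    · exact le_rfl
  obtain ⟨C, B₀, h⟩ : ∃ C B₀ : ℝ, ∀ B : ℝ, B₀ ≤ B →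
      ∑ s ∈ (aff_finite (K := K) (r := r) B).toFinset, (if IsMor d K (spec F s) then
        Real.exp (((Pre K D (spec F s)).ncard : ℝ) ^ ((1 : ℝ) / 3)) else 0) ≤
      C * ({s : Fin r → K | Height.mulHeight (Fin.cons 1 s : Fin (r + 1) → K) ≤ B}.ncard :
        ℝ) := by
    rcases Nat.eq_zero_or_pos r with rfl | hr
    · refine ⟨(if IsMor d K (spec F (fun i => i.elim0 : Fin 0 → K)) then
        Real.exp (((Pre K D (spec F (fun i => i.elim0 : Fin 0 → K))).ncard : ℝ) ^ ((1 : ℝ) / 3))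
        else 0), 0, fun B _ => ?_⟩
      rw [Set.ncard_eq_toFinset_card _ (aff_finite B)]
      rw [mul_comm, ← nsmul_eq_mul, ← Finset.sum_const]
      refine Finset.sum_le_sum fun s _ => le_of_eq ?_
      have h5 : (fun i => i.elim0 : Fin 0 → K) = s := Subsingleton.elim _ _
      rw [h5]
    · exact fam_bound K hd D F hF hv hr
  set T := ∑ s ∈ (aff_finite (K := K) (r := r) B₀).toFinset, (if IsMor d K (spec F s) then
      Real.exp (((Pre K D (spec F s)).ncard : ℝ) ^ ((1 : ℝ) / 3)) else 0) with hT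
  have hT0 : 0 ≤ T := Finset.sum_nonneg fun s _ => hnn s
  refine ⟨|C| + T, fun B hB => ?_⟩
  rw [finsum_mem_eq_finite_toFinset_sum _ (aff_finite B)]
  have hpos : (1 : ℝ) ≤
      ({s : Fin r → K | Height.mulHeight (Fin.cons 1 s : Fin (r + 1) → K) ≤ B}.ncard : ℝ) := by
    exact_mod_cast aff_zero hB
  rcases le_total B₀ B with h1 | h1
  · refine (h B h1).trans (mul_le_mul_of_nonneg_right ?_ (by linarith))
    have := le_abs_self C
    linarith
  · have h2 : ∑ s ∈ (aff_finite (K := K) (r := r) B).toFinset, (if IsMor d K (spec F s) then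
        Real.exp (((Pre K D (spec F s)).ncard : ℝ) ^ ((1 : ℝ) / 3)) else 0) ≤ T := by
      refine Finset.sum_le_sum_of_subset_of_nonneg ?_ fun s _ _ => hnn s
      intro s hs
      rw [Set.Finite.mem_toFinset] at hs ⊢
      exact le_trans hs h1
    have h3 := abs_nonneg C
    nlinarith

end aff

end Pool.Agent.HFW
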